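import Pool.Agent.Lib_helper86.OPS.PairB2
import Pool.Agent.Lib_helper69.OPS.Defs

/-!
# MP_859019, ONE PURE STATE, positivity (II), on the definitions of `Lib_helper69.OPS.Defs`
-/

set_option autoImplicit false

open scoped BigOperators Real Topology Interval ComplexOrder
open Complex MeasureTheory Set Filter Matrix

namespace Pool.Agent.Lib_helper86.OPS

variable {m ι : Type} [Fintype m] [DecidableEq m] [Fintype ι] [DecidableEq ι]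

lemma FF_eq (P Q : Matrix m m ℂ) (be y : ι → ℝ) (z : ℂ) :
    Pool.Agent.OPS.FF P Q be y z = FF P Q be y z := rfl

/-- pair (a): `P = λ N + u uᴴ`, `Q = N`; every large circle -/
theorem pos2a {p : ℝ} (hp : 3 < p) {N : Matrix m m ℂ} (hN : N.PosDef) (u : m → ℂ) {lam : ℝ}
    (hl : 0 < lam) (be y : ι → ℝ) (hbe : ∀ j, 0 ≤ be j) (hy : ∀ j, 0 < y j) :
    ∃ δ > 0, ∃ M : ℝ, ∀ c ρ : ℝ, 0 < ρ → ρ < c → c - ρ < δ → M < c + ρ → ∃ e : ℝ, 0 ≤ e ∧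
      (2 * π * I : ℂ)⁻¹ * (∮ z in C((c : ℂ), ρ), z ^ ((p - 1 : ℝ) : ℂ) *
        Pool.Agent.OPS.FF ((lam : ℂ) • N + vecMulVec u (star u)) N be y z) = (e : ℂ) :=
  (pairA hN u lam hl be y hbe hy).pos hp

/-- pair (b): `P` positive definite, `Q = u uᴴ`; every large circle -/
theorem pos2b {p : ℝ} (hp : 3 < p) {P : Matrix m m ℂ} (hP : P.PosDef) (u : m → ℂ)
    (be y : ι → ℝ) (hbe : ∀ j, 0 ≤ be j) (hy : ∀ j, 0 < y j) :
    ∃ δ > 0, ∃ M : ℝ, ∀ c ρ : ℝ, 0 < ρ → ρ < c → c - ρ < δ → M < c + ρ → ∃ e : ℝ, 0 ≤ e ∧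
      (2 * π * I : ℂ)⁻¹ * (∮ z in C((c : ℂ), ρ), z ^ ((p - 1 : ℝ) : ℂ) *
        Pool.Agent.OPS.FF P (vecMulVec u (star u)) be y z) = (e : ℂ) :=
  (pairB hP u be y hbe hy).pos hp

end Pool.Agent.Lib_helper86.OPS
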