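import Pool.Agent.Lib_helper86.OPS.Recip

/-!
# MP_859019, ONE PURE STATE, positivity (II): large circles as an eventual notion; the integrand
-/

set_option autoImplicit false

open scoped BigOperators Real Topology Interval
open Complex MeasureTheory Set Filter Matrix

namespace Pool.Agent.Lib_helper86.OPS

def EvC (P : ℂ → Prop) : Prop := ∃ δ > 0, ∃ M : ℝ, ∀ z, Circ δ M z → P z
def StiE (f : ℂ → ℂ) : Prop := ∃ δ > 0, ∃ M : ℝ, Sti δ M f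
def GenE (F : ℂ → ℂ) : Prop := ∃ δ > 0, ∃ M : ℝ, Gen δ M F

lemma EvC.mono {P Q : ℂ → Prop} (h : EvC P) (hPQ : ∀ z, P z → Q z) : EvC Q := by
  obtain ⟨δ, hδ, M, h⟩ := h
  exact ⟨δ, hδ, M, fun z hz => hPQ z (h z hz)⟩

lemma EvC.and {P Q : ℂ → Prop} (h : EvC P) (h' : EvC Q) : EvC (fun z => P z ∧ Q z) := by
  obtain ⟨δ, hδ, M, h⟩ := h
  obtain ⟨δ', hδ', M', h'⟩ := h'
  exact ⟨min δ δ', lt_min hδ hδ', max M M', fun z hz =>
    ⟨h z (hz.mono (min_le_left _ _) (le_max_left _ _)),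
      h' z (hz.mono (min_le_right _ _) (le_max_right _ _))⟩⟩

lemma EvC.all {ι : Type*} [Finite ι] {P : ι → ℂ → Prop} (h : ∀ i, EvC (P i)) :
    EvC (fun z => ∀ i, P i z) := by
  classical
  cases nonempty_fintype ι
  have : ∀ s : Finset ι, EvC (fun z => ∀ i ∈ s, P i z) := by
    intro s
    induction s using Finset.induction_on with
    | empty => exact ⟨1, one_pos, 0, fun z _ => by simp⟩
    | insert a s ha ih =>
      refine ((h a).and ih).mono fun z hz i hi => ?_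
      rcases Finset.mem_insert.1 hi with rfl | hi
      · exact hz.1
      · exact hz.2 i hi
  exact (this Finset.univ).mono fun z hz i => hz i (Finset.mem_univ i)

lemma EvC.ne_zero : EvC (fun z => z ≠ 0) := ⟨1, one_pos, 0, fun _ hz => hz.ne_zero⟩

lemma EvC.node {w : ℝ} (hw : 0 ≤ w) : EvC (fun z => z - (w : ℂ) ≠ 0) := by
  rcases eq_or_lt_of_le hw with h | h
  · exact EvC.ne_zero.mono fun z hz => by rw [← h]; simpa using hz
  · exact ⟨w, h, w, fun z hz => hz.ne le_rfl le_rfl⟩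

lemma StiE.congr {f g : ℂ → ℂ} (hf : StiE f) (h : EvC (fun z => f z = g z)) : StiE g := by
  obtain ⟨δ, hδ, M, hf⟩ := hf
  obtain ⟨δ', hδ', M', h'⟩ := h
  have h1 := hf.mono (min_le_left δ δ') (le_max_left M M')
  obtain ⟨n, c0, m, w, a, b, c, d⟩ := h1
  refine ⟨min δ δ', lt_min hδ hδ', max M M', n, c0, m, w, a, b, c, fun z hz => ?_⟩
  rw [← h' z (hz.mono (min_le_right _ _) (le_max_right _ _))]
  exact d z hz

lemma GenE.congr {F G : ℂ → ℂ} (hF : GenE F) (h : EvC (fun z => F z = G z)) : GenE G := by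
  obtain ⟨δ, hδ, M, hF⟩ := hF
  obtain ⟨δ', hδ', M', h'⟩ := h
  exact ⟨min δ δ', lt_min hδ hδ', max M M', Gen.congr _ _
    (fun z hz => h' z (hz.mono (min_le_right _ _) (le_max_right _ _)))
    (hF.mono (min_le_left _ _) (le_max_left _ _))⟩

lemma GenE.zero : GenE (fun _ => 0) := ⟨1, one_pos, 0, Gen.zero⟩

lemma GenE.add {F G : ℂ → ℂ} (hF : GenE F) (hG : GenE G) : GenE (fun z => F z + G z) := by
  obtain ⟨δ, hδ, M, hF⟩ := hF
  obtain ⟨δ', hδ', M', hG⟩ := hG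
  exact ⟨min δ δ', lt_min hδ hδ', max M M', Gen.add _ _
    (hF.mono (min_le_left _ _) (le_max_left _ _)) (hG.mono (min_le_right _ _) (le_max_right _ _))⟩

lemma GenE.smul {F : ℂ → ℂ} (hF : GenE F) {a : ℝ} (ha : 0 ≤ a) : GenE (fun z => (a : ℂ) * F z) := by
  obtain ⟨δ, hδ, M, hF⟩ := hF
  exact ⟨δ, hδ, M, Gen.smul a ha _ hF⟩

lemma GenE.mul {F f : ℂ → ℂ} (hF : GenE F) (hf : StiE f) : GenE (fun z => F z * f z) := by
  obtain ⟨δ, hδ, M, hF⟩ := hF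
  obtain ⟨δ', hδ', M', hf⟩ := hf
  exact ⟨min δ δ', lt_min hδ hδ', max M M',
    (hF.mono (min_le_left _ _) (le_max_left _ _)).mulSti
      (hf.mono (min_le_right _ _) (le_max_right _ _))⟩

lemma GenE.sum {ι : Type*} (s : Finset ι) {F : ι → ℂ → ℂ} (h : ∀ i ∈ s, GenE (F i)) :
    GenE (fun z => ∑ i ∈ s, F i z) := by
  classical
  induction s using Finset.induction_on with
  | empty => simpa using GenE.zero
  | insert a s ha ih =>
    refine GenE.congr ((h a (Finset.mem_insert_self a s)).add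
      (ih fun i hi => h i (Finset.mem_insert_of_mem hi))) ⟨1, one_pos, 0, fun z _ => ?_⟩
    simp only [Finset.sum_insert ha]

/-- four positive nodes `w, w, w', w'` -/
lemma GenE.base {w w' : ℝ} (hw : 0 < w) (hw' : 0 < w') :
    GenE (fun z => (((z - (w : ℂ)) * (z - (w' : ℂ)))⁻¹) ^ 2) := by
  refine ⟨min w w', lt_min hw hw', max w w', ?_⟩
  refine Gen.congr _ _ (fun z hz => ?_) (Gen.base 0 ![w, w, w', w'] ?_)
  · simp [Fin.prod_univ_four]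
    ring
  · intro i
    fin_cases i
    · exact ⟨min_le_left _ _, le_max_left _ _⟩
    · exact ⟨min_le_left _ _, le_max_left _ _⟩
    · exact ⟨min_le_right _ _, le_max_right _ _⟩
    · exact ⟨min_le_right _ _, le_max_right _ _⟩

theorem GenE.pos {F : ℂ → ℂ} (hF : GenE F) {p : ℝ} (hp : 3 < p) :
    ∃ δ > 0, ∃ M : ℝ, ∀ c ρ : ℝ, 0 < ρ → ρ < c → c - ρ < δ → M < c + ρ → ∃ e : ℝ, 0 ≤ e ∧
      (2 * π * I : ℂ)⁻¹ * (∮ z in C((c : ℂ), ρ), z ^ ((p - 1 : ℝ) : ℂ) * F z) = (e : ℂ) := by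
  obtain ⟨δ, hδ, M, hF⟩ := hF
  exact ⟨δ, hδ, M, fun c ρ h1 h2 h3 h4 => hF.pos hp h1 h2 h3 h4⟩

theorem stiE_recip {ι : Type*} [Fintype ι] [DecidableEq ι] (α : ℝ) (hα : 0 < α) (m w : ι → ℝ)
    (hm : ∀ i, 0 ≤ m i) (hw : ∀ i, 0 ≤ w i) :
    EvC (fun z => (α : ℂ) - ∑ i, (m i : ℂ) / (z - (w i : ℂ)) ≠ 0) ∧
      StiE (fun z => ((α : ℂ) - ∑ i, (m i : ℂ) / (z - (w i : ℂ)))⁻¹) := by
  obtain ⟨δ, hδ, M, h1, h2⟩ := sti_recip α hα m w hm hw
  exact ⟨⟨δ, hδ, M, h1⟩, ⟨δ, hδ, M, h2⟩⟩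

/-- the reciprocal in the form `α⁻¹ + Σ g / (z - h)` -/
theorem ev_recip {ι : Type*} [Fintype ι] [DecidableEq ι] (α : ℝ) (hα : 0 < α) (m w : ι → ℝ)
    (hm : ∀ i, 0 ≤ m i) (hw : ∀ i, 0 ≤ w i) :
    ∃ (g h : ι → ℝ), (∀ k, 0 ≤ g k) ∧ (∀ k, 0 ≤ h k) ∧
      EvC (fun z => ((α : ℂ) - ∑ i, (m i : ℂ) / (z - (w i : ℂ)))⁻¹ =
        ((α⁻¹ : ℝ) : ℂ) + ∑ k, (g k : ℂ) / (z - (h k : ℂ))) := by
  obtain ⟨g, h, hg, hh, -, hid⟩ := recip_identity α hα m w hm hw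
  refine ⟨fun k => α⁻¹ * α⁻¹ * g k, h, fun k => mul_nonneg (mul_self_nonneg _) (hg k), hh, ?_⟩
  refine ((EvC.all fun i => EvC.node (hw i)).and (EvC.all fun k => EvC.node (hh k))).mono
    fun z hz => ?_
  rw [inv_eq_of_mul_eq_one_right (hid z hz.1 hz.2), mul_add, mul_one, Finset.mul_sum, Finset.mul_sum]
  push_cast
  congr 1
  exact Finset.sum_congr rfl fun k _ => by ring

variable {κ : Type*} [Fintype κ] [DecidableEq κ] {J : Type*} [Fintype J]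

/-- the resolvent of `b Q` -/
noncomputable def SS (Q : Matrix κ κ ℂ) (b : ℝ) (z : ℂ) : Matrix κ κ ℂ :=
  (z • (1 : Matrix κ κ ℂ) - (b : ℂ) • Q)⁻¹

noncomputable def TT (P Q : Matrix κ κ ℂ) (be y : J → ℝ) (z : ℂ) : Matrix κ κ ℂ :=
  (P⁻¹ - ∑ i, (y i : ℂ) • SS Q (be i) z)⁻¹

/-- the integrand -/
noncomputable def FF (P Q : Matrix κ κ ℂ) (be y : J → ℝ) (z : ℂ) : ℂ :=
  ∑ j, (y j : ℂ) * -((SS Q (be j) z * TT P Q be y z - TT P Q be y z * SS Q (be j) z) *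
    (SS Q (be j) z * TT P Q be y z - TT P Q be y z * SS Q (be j) z)).trace

lemma conj_inv {U : Matrix κ κ ℂ} (h1 : Uᴴ * U = 1) (h2 : U * Uᴴ = 1) (X : Matrix κ κ ℂ) :
    (Uᴴ * X * U)⁻¹ = Uᴴ * X⁻¹ * U := by
  rw [Matrix.mul_inv_rev, Matrix.mul_inv_rev, Matrix.inv_eq_right_inv h1, Matrix.inv_eq_right_inv h2,
    Matrix.mul_assoc]

lemma SS_conj {U : Matrix κ κ ℂ} (h1 : Uᴴ * U = 1) (h2 : U * Uᴴ = 1) (Q : Matrix κ κ ℂ) (b : ℝ)
    (z : ℂ) : SS (Uᴴ * Q * U) b z = Uᴴ * SS Q b z * U := by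
  unfold SS
  rw [← conj_inv h1 h2]
  congr 1
  rw [Matrix.mul_sub, Matrix.sub_mul, Matrix.mul_smul, Matrix.smul_mul, Matrix.mul_one, h1,
    Matrix.mul_smul, Matrix.smul_mul]

lemma TT_conj {U : Matrix κ κ ℂ} (h1 : Uᴴ * U = 1) (h2 : U * Uᴴ = 1) (P Q : Matrix κ κ ℂ)
    (be y : J → ℝ) (z : ℂ) : TT (Uᴴ * P * U) (Uᴴ * Q * U) be y z = Uᴴ * TT P Q be y z * U := by
  unfold TT
  rw [← conj_inv h1 h2]
  congr 1
  rw [Matrix.mul_sub, Matrix.sub_mul, conj_inv h1 h2, Matrix.mul_sum, Matrix.sum_mul]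
  congr 1
  refine Finset.sum_congr rfl fun i _ => ?_
  rw [SS_conj h1 h2, Matrix.mul_smul, Matrix.smul_mul]

lemma FF_conj {U : Matrix κ κ ℂ} (h1 : Uᴴ * U = 1) (h2 : U * Uᴴ = 1) (P Q : Matrix κ κ ℂ)
    (be y : J → ℝ) (z : ℂ) : FF (Uᴴ * P * U) (Uᴴ * Q * U) be y z = FF P Q be y z := by
  unfold FF
  refine Finset.sum_congr rfl fun j _ => ?_
  congr 2
  rw [SS_conj h1 h2, TT_conj h1 h2]
  set S := SS Q (be j) z
  set T := TT P Q be y z
  have e : ∀ A B : Matrix κ κ ℂ, Uᴴ * A * U * (Uᴴ * B * U) = Uᴴ * (A * B) * U := by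
    intro A B
    calc Uᴴ * A * U * (Uᴴ * B * U) = Uᴴ * A * (U * Uᴴ) * B * U := by simp only [Matrix.mul_assoc]
      _ = _ := by rw [h2, Matrix.mul_one, Matrix.mul_assoc Uᴴ A B]
  rw [e, e, ← Matrix.sub_mul, ← Matrix.mul_sub, e, Matrix.trace_mul_comm, ← Matrix.mul_assoc, h2,
    Matrix.one_mul]

lemma SS_diag (n : κ → ℝ) (b : ℝ) (z : ℂ) (h : ∀ a, z - ((b * n a : ℝ) : ℂ) ≠ 0) :
    SS (diagonal fun a => (n a : ℂ)) b z = diagonal fun a => (z - ((b * n a : ℝ) : ℂ))⁻¹ := by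
  unfold SS
  refine Matrix.inv_eq_right_inv ?_
  have e : z • (1 : Matrix κ κ ℂ) - (b : ℂ) • diagonal (fun a => (n a : ℂ)) =
      diagonal fun a => z - ((b * n a : ℝ) : ℂ) := by
    ext i j
    by_cases hij : i = j
    · subst hij; simp
    · simp [hij]
  rw [e, diagonal_mul_diagonal, ← diagonal_one]
  congr 1
  funext a
  exact mul_inv_cancel₀ (h a)

/-- commutators with a diagonal matrix -/
lemma comm_trace (s : κ → ℂ) (T : Matrix κ κ ℂ) :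
    -((diagonal s * T - T * diagonal s) * (diagonal s * T - T * diagonal s)).trace =
      ∑ a, ∑ b, (s a - s b) ^ 2 * (T a b * T b a) := by
  have e : ∀ a b, (diagonal s * T - T * diagonal s) a b = (s a - s b) * T a b := by
    intro a b
    rw [Matrix.sub_apply, diagonal_mul, mul_diagonal]; ring
  simp only [Matrix.trace, Matrix.diag_apply, Matrix.mul_apply, e, ← Finset.sum_neg_distrib]
  refine Finset.sum_congr rfl fun a _ => Finset.sum_congr rfl fun b _ => ?_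
  ring

end Pool.Agent.Lib_helper86.OPS
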