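import Pool.Agent.Lib_helper88.QB.DD

/-!
# MP_859019, ONE PURE STATE, positivity (II), part A: the cone generated by `z^k / Π_{k+4} (z - w)`
-/

set_option autoImplicit false

open scoped BigOperators Real Topology Interval
open Complex MeasureTheory Set Filter

namespace Pool.Agent.Lib_helper86.OPS

/-- the points of the large circles in the right half plane -/
def Circ (δ M : ℝ) (z : ℂ) : Prop :=
  ∃ c ρ : ℝ, 0 < ρ ∧ ρ < c ∧ c - ρ < δ ∧ M < c + ρ ∧ ‖z - (c : ℂ)‖ = ρ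

lemma Circ.mono {δ δ' M M' : ℝ} (h1 : δ' ≤ δ) (h2 : M ≤ M') {z : ℂ} (h : Circ δ' M' z) :
    Circ δ M z := by
  obtain ⟨c, ρ, a, b, c1, d, e⟩ := h
  exact ⟨c, ρ, a, b, by linarith, by linarith, e⟩

lemma Circ.re_pos {δ M : ℝ} {z : ℂ} (h : Circ δ M z) : 0 < z.re := by
  obtain ⟨c, ρ, a, b, c1, d, e⟩ := h
  have h1 : |(z - (c : ℂ)).re| ≤ ‖z - (c : ℂ)‖ := abs_re_le_norm _
  have h2 : (z - (c : ℂ)).re = z.re - c := by simp
  rw [h2, e] at h1
  have := neg_abs_le (z.re - c)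
  linarith

lemma Circ.ne_zero {δ M : ℝ} {z : ℂ} (h : Circ δ M z) : z ≠ 0 := by
  intro h0
  have := h.re_pos
  rw [h0] at this
  simp at this

lemma Circ.ne {δ M : ℝ} {z : ℂ} (h : Circ δ M z) {w : ℝ} (h1 : δ ≤ w) (h2 : w ≤ M) :
    z - (w : ℂ) ≠ 0 := by
  obtain ⟨c, ρ, a, b, c1, d, e⟩ := h
  intro h0
  rw [sub_eq_zero.1 h0, ← ofReal_sub, norm_real, Real.norm_eq_abs] at e
  rcases abs_cases (w - c) with h | h <;> linarith

lemma mem_disc {δ M c ρ w : ℝ} (hc : c - ρ < δ) (hM : M < c + ρ) (h1 : δ ≤ w) (h2 : w ≤ M) :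
    |w - c| < ρ := by
  rw [abs_lt]; constructor <;> linarith

/-- the cone -/
inductive Gen (δ M : ℝ) : (ℂ → ℂ) → Prop
  | base (k : ℕ) (w : Fin (k + 4) → ℝ) (hw : ∀ i, δ ≤ w i ∧ w i ≤ M) :
      Gen δ M (fun z => z ^ k / ∏ i, (z - (w i : ℂ)))
  | zero : Gen δ M (fun _ => 0)
  | add (F G : ℂ → ℂ) (hF : Gen δ M F) (hG : Gen δ M G) : Gen δ M (fun z => F z + G z)
  | smul (a : ℝ) (ha : 0 ≤ a) (F : ℂ → ℂ) (hF : Gen δ M F) : Gen δ M (fun z => (a : ℂ) * F z)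
  | congr (F G : ℂ → ℂ) (h : ∀ z, Circ δ M z → F z = G z) (hF : Gen δ M F) : Gen δ M G

lemma Gen.mono {δ δ' M M' : ℝ} (h1 : δ' ≤ δ) (h2 : M ≤ M') {F : ℂ → ℂ} (h : Gen δ M F) :
    Gen δ' M' F := by
  induction h with
  | base k w hw => exact Gen.base k w fun i => ⟨h1.trans (hw i).1, (hw i).2.trans h2⟩
  | zero => exact Gen.zero
  | add F G _ _ ihF ihG => exact Gen.add F G ihF ihG
  | smul a ha F _ ih => exact Gen.smul a ha F ih
  | congr F G h _ ih => exact Gen.congr F G (fun z hz => h z (hz.mono h1 h2)) ih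

lemma Gen.sum {δ M : ℝ} {ι : Type*} (s : Finset ι) (F : ι → ℂ → ℂ) (h : ∀ i ∈ s, Gen δ M (F i)) :
    Gen δ M (fun z => ∑ i ∈ s, F i z) := by
  classical
  induction s using Finset.induction_on with
  | empty => simpa using Gen.zero
  | insert a s ha ih =>
    refine Gen.congr (fun z => F a z + ∑ i ∈ s, F i z) _ (fun z _ => ?_)
      (Gen.add _ _ (h a (Finset.mem_insert_self a s))
        (ih fun i hi => h i (Finset.mem_insert_of_mem hi)))
    rw [Finset.sum_insert ha]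

lemma Gen.mulNode {δ M : ℝ} {F : ℂ → ℂ} (hF : Gen δ M F) {w : ℝ} (h1 : δ ≤ w) (h2 : w ≤ M) :
    Gen δ M (fun z => F z * (z / (z - (w : ℂ)))) := by
  induction hF with
  | base k v hv =>
    refine Gen.congr _ _ (fun z hz => ?_) (Gen.base (k + 1) (Fin.cons w v : Fin (k + 4 + 1) → ℝ) ?_)
    · have e : ∏ i, (z - ((Fin.cons w v : Fin (k + 4 + 1) → ℝ) i : ℂ))
          = (z - (w : ℂ)) * ∏ i, (z - (v i : ℂ)) := by
        rw [Fin.prod_univ_succ]; simp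
      rw [show (∏ i : Fin (k + 1 + 4), (z - ((Fin.cons w v : Fin (k + 4 + 1) → ℝ) i : ℂ)))
        = (z - (w : ℂ)) * ∏ i, (z - (v i : ℂ)) from e, pow_succ, div_mul_div_comm, mul_comm (z - _)]
    · intro i
      refine Fin.cases ?_ ?_ i
      · exact ⟨h1, h2⟩
      · intro j; simpa using hv j
  | zero => exact Gen.congr _ _ (fun z _ => by simp) Gen.zero
  | add F G _ _ ihF ihG => exact Gen.congr _ _ (fun z _ => by simp only; ring) (Gen.add _ _ ihF ihG)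
  | smul a ha F _ ih => exact Gen.congr _ _ (fun z _ => by simp only; ring) (Gen.smul a ha _ ih)
  | congr F G h _ ih => exact Gen.congr _ _ (fun z hz => by simp only [h z hz]) ih

/-- `f z = c0 + Σ m_i z / (z - w_i)` on the large circles, `c0, m_i ≥ 0` -/
def Sti (δ M : ℝ) (f : ℂ → ℂ) : Prop :=
  ∃ (n : ℕ) (c0 : ℝ) (m w : Fin n → ℝ), 0 ≤ c0 ∧ (∀ i, 0 ≤ m i) ∧ (∀ i, δ ≤ w i ∧ w i ≤ M) ∧
    ∀ z, Circ δ M z → f z = (c0 : ℂ) + ∑ i, (m i : ℂ) * (z / (z - (w i : ℂ)))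

lemma Sti.mono {δ δ' M M' : ℝ} (h1 : δ' ≤ δ) (h2 : M ≤ M') {f : ℂ → ℂ} (h : Sti δ M f) :
    Sti δ' M' f := by
  obtain ⟨n, c0, m, w, a, b, c, d⟩ := h
  exact ⟨n, c0, m, w, a, b, fun i => ⟨h1.trans (c i).1, (c i).2.trans h2⟩,
    fun z hz => d z (hz.mono h1 h2)⟩

lemma Gen.mulSti {δ M : ℝ} {F f : ℂ → ℂ} (hF : Gen δ M F) (hf : Sti δ M f) :
    Gen δ M (fun z => F z * f z) := by
  obtain ⟨n, c0, m, w, h0, hm, hw, he⟩ := hf
  refine Gen.congr (fun z => (c0 : ℂ) * F z + ∑ i, (m i : ℂ) * (F z * (z / (z - (w i : ℂ))))) _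
    (fun z hz => ?_) (Gen.add _ _ (Gen.smul c0 h0 _ hF) (Gen.sum _ _ fun i _ =>
      Gen.smul (m i) (hm i) _ (hF.mulNode (hw i).1 (hw i).2)))
  rw [he z hz, mul_add, Finset.mul_sum]
  congr 1
  · ring
  · exact Finset.sum_congr rfl fun i _ => by ring

lemma Gen.cont {δ M : ℝ} {F : ℂ → ℂ} (hF : Gen δ M F) {c ρ : ℝ} (hρ : 0 < ρ) (hc : ρ < c)
    (h1 : c - ρ < δ) (h2 : M < c + ρ) : ContinuousOn F (Metric.sphere (c : ℂ) ρ) := by
  have hC : ∀ z ∈ Metric.sphere (c : ℂ) ρ, Circ δ M z := fun z hz =>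
    ⟨c, ρ, hρ, hc, h1, h2, by rwa [mem_sphere_iff_norm] at hz⟩
  induction hF with
  | base k w hw =>
    refine ContinuousOn.div (by fun_prop) (by fun_prop) fun z hz => ?_
    exact Finset.prod_ne_zero_iff.2 fun i _ => (hC z hz).ne (hw i).1 (hw i).2
  | zero => exact continuousOn_const
  | add F G _ _ ihF ihG => exact ihF.add ihG
  | smul a ha F _ ih => exact continuousOn_const.mul ih
  | congr F G h _ ih => exact ih.congr fun z hz => (h z (hC z hz)).symm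

/-- positivity on the cone -/
theorem Gen.pos {δ M : ℝ} {F : ℂ → ℂ} (hF : Gen δ M F) {p : ℝ} (hp : 3 < p) {c ρ : ℝ}
    (hρ : 0 < ρ) (hc : ρ < c) (h1 : c - ρ < δ) (h2 : M < c + ρ) :
    ∃ e : ℝ, 0 ≤ e ∧ (2 * π * I : ℂ)⁻¹ *
      (∮ z in C((c : ℂ), ρ), z ^ ((p - 1 : ℝ) : ℂ) * F z) = (e : ℂ) := by
  have hC : ∀ z ∈ Metric.sphere (c : ℂ) ρ, Circ δ M z := fun z hz =>
    ⟨c, ρ, hρ, hc, h1, h2, by rwa [mem_sphere_iff_norm] at hz⟩
  have hz0 : ∀ z ∈ Metric.sphere (c : ℂ) ρ, z ≠ 0 := fun z hz => (hC z hz).ne_zero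
  have hpow : ContinuousOn (fun z : ℂ => z ^ ((p - 1 : ℝ) : ℂ)) (Metric.sphere (c : ℂ) ρ) := by
    intro z hz
    exact (continuousAt_cpow_const (Or.inl (hC z hz).re_pos)).continuousWithinAt
  have hint : ∀ G : ℂ → ℂ, Gen δ M G →
      CircleIntegrable (fun z => z ^ ((p - 1 : ℝ) : ℂ) * G z) (c : ℂ) ρ := fun G hG =>
    (hpow.mul (hG.cont hρ hc h1 h2)).circleIntegrable hρ.le
  induction hF with
  | base k w hw =>
    obtain ⟨e, he, h⟩ := Pool.Agent.QB.dd_pos (k + 3) (p - 1 + k) c ρ (by push_cast; linarith) hρ hc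
      w (fun i => mem_disc h1 h2 (hw i).1 (hw i).2)
    refine ⟨e, he, ?_⟩
    rw [← h]
    congr 1
    refine circleIntegral.integral_congr hρ.le fun z hz => ?_
    have : z ^ ((p - 1 + k : ℝ) : ℂ) = z ^ ((p - 1 : ℝ) : ℂ) * z ^ k := by
      push_cast
      rw [cpow_add _ _ (hz0 z hz), cpow_natCast]
    simp only
    rw [this, mul_div_assoc]
  | zero => exact ⟨0, le_rfl, by simp [circleIntegral]⟩
  | add F G hF hG ihF ihG =>
    obtain ⟨a, ha, ea⟩ := ihF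
    obtain ⟨b, hb, eb⟩ := ihG
    refine ⟨a + b, add_nonneg ha hb, ?_⟩
    rw [ofReal_add, ← ea, ← eb, ← mul_add, ← circleIntegral.integral_add (hint F hF) (hint G hG)]
    congr 1
    refine circleIntegral.integral_congr hρ.le fun z hz => ?_
    simp only [mul_add]
  | smul a ha F hF ih =>
    obtain ⟨b, hb, eb⟩ := ih
    refine ⟨a * b, mul_nonneg ha hb, ?_⟩
    have e1 : (∮ z in C((c : ℂ), ρ), z ^ ((p - 1 : ℝ) : ℂ) * ((a : ℂ) * F z)) =
        (a : ℂ) * ∮ z in C((c : ℂ), ρ), z ^ ((p - 1 : ℝ) : ℂ) * F z := by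
      rw [← circleIntegral.integral_const_mul]
      refine circleIntegral.integral_congr hρ.le fun z hz => ?_
      ring
    rw [e1, ofReal_mul, ← eb]
    ring
  | congr F G h hF ih =>
    obtain ⟨b, hb, eb⟩ := ih
    refine ⟨b, hb, ?_⟩
    rw [← eb]
    congr 1
    refine circleIntegral.integral_congr hρ.le fun z hz => ?_
    simp only [h z (hC z hz)]

end Pool.Agent.Lib_helper86.OPS
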