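import Pool.Agent.Lib_helper86.OPS.Ev

/-!
# MP_859019, ONE PURE STATE, positivity (II), pair (a): `P = λ N + u uᴴ`, `Q = N`
-/

set_option autoImplicit false

open scoped BigOperators Real Topology Interval ComplexOrder
open Complex MeasureTheory Set Filter Matrix

namespace Pool.Agent.Lib_helper86.OPS

variable {κ : Type*} [Fintype κ] [DecidableEq κ] {J : Type*} [Fintype J] [DecidableEq J]

/-- Sherman–Morrison for a diagonal matrix -/
lemma sm_inv (d x y : κ → ℂ) (a : ℂ) (hd : ∀ i, d i ≠ 0) (e : ℂ)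
    (he : e * (1 - a * ∑ i, y i * x i * (d i)⁻¹) = 1) :
    (diagonal d - a • vecMulVec x y)⁻¹ =
      diagonal (fun i => (d i)⁻¹) + (a * e) • vecMulVec (fun i => (d i)⁻¹ * x i) (fun i => (d i)⁻¹ * y i) := by
  refine Matrix.inv_eq_right_inv ?_
  ext i j
  have h1 : ∀ k, (diagonal d - a • vecMulVec x y) i k = (if i = k then d i else 0) - a * (x i * y k) := by
    intro k
    simp [Matrix.sub_apply, diagonal_apply, vecMulVec_apply]
  have h2 : ∀ k, (diagonal (fun i => (d i)⁻¹) + (a * e) • vecMulVec (fun i => (d i)⁻¹ * x i)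
      (fun i => (d i)⁻¹ * y i)) k j =
      (if k = j then (d j)⁻¹ else 0) + a * e * ((d k)⁻¹ * x k * ((d j)⁻¹ * y j)) := by
    intro k
    by_cases hk : k = j
    · subst hk; simp [Matrix.add_apply, diagonal_apply, vecMulVec_apply]
    · simp [Matrix.add_apply, diagonal_apply, vecMulVec_apply, hk]
  simp only [Matrix.mul_apply, h1, h2]
  set t : ℂ := ∑ i, y i * x i * (d i)⁻¹ with ht
  have h3 : ∑ k, ((if i = k then d i else 0) - a * (x i * y k)) *
      ((if k = j then (d j)⁻¹ else 0) + a * e * ((d k)⁻¹ * x k * ((d j)⁻¹ * y j))) =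
      d i * ((if i = j then (d j)⁻¹ else 0) + a * e * ((d i)⁻¹ * x i * ((d j)⁻¹ * y j)))
        - a * (x i * y j) * (d j)⁻¹ - a * x i * (a * e) * ((d j)⁻¹ * y j) * t := by
    have h4 : ∀ k, ((if i = k then d i else 0) - a * (x i * y k)) *
      ((if k = j then (d j)⁻¹ else 0) + a * e * ((d k)⁻¹ * x k * ((d j)⁻¹ * y j))) =
      (if i = k then d i * ((if k = j then (d j)⁻¹ else 0) + a * e * ((d k)⁻¹ * x k * ((d j)⁻¹ * y j))) else 0)
        - (if k = j then a * (x i * y k) * (d j)⁻¹ else 0)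
        - a * x i * (a * e) * ((d j)⁻¹ * y j) * (y k * x k * (d k)⁻¹) := by
      intro k
      split_ifs <;> ring
    simp only [h4, Finset.sum_sub_distrib, ← Finset.mul_sum, Finset.sum_ite_eq, Finset.sum_ite_eq',
      Finset.mem_univ, if_true, ← ht]
  rw [h3, Matrix.one_apply]
  have hdi := hd i
  have hdj := hd j
  by_cases hij : i = j
  · subst hij
    simp only [if_true]
    have : d i * (d i)⁻¹ = 1 := mul_inv_cancel₀ hdi
    linear_combination this + a * e * x i * ((d i)⁻¹ * y i) * this + a * x i * y i * (d i)⁻¹ * he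
  · simp only [if_neg hij]
    have : d i * (d i)⁻¹ = 1 := mul_inv_cancel₀ hdi
    linear_combination a * e * x i * ((d j)⁻¹ * y j) * this + a * x i * y j * (d j)⁻¹ * he

/-- the diagonal case -/
theorem pairA_diag (n : κ → ℝ) (hn : ∀ a, 0 < n a) (u : κ → ℂ) (lam : ℝ) (hl : 0 < lam)
    (be y : J → ℝ) (hbe : ∀ j, 0 ≤ be j) (hy : ∀ j, 0 < y j) :
    GenE (FF ((lam : ℂ) • diagonal (fun a => (n a : ℂ)) + vecMulVec u (star u))
      (diagonal fun a => (n a : ℂ)) be y) := by
  -- constants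
  set s0 : ℝ := ∑ a, normSq (u a) / (lam * n a) with hs0
  have hs0' : 0 ≤ s0 := Finset.sum_nonneg fun a _ =>
    div_nonneg (normSq_nonneg _) (mul_pos hl (hn a)).le
  set c : ℝ := 1 / (1 + s0) with hc
  have hc0 : 0 < c := by rw [hc]; positivity
  have hcs : c * (1 + s0) = 1 := by rw [hc]; field_simp
  set v : κ → ℂ := fun a => u a / ((lam * n a : ℝ) : ℂ) with hv
  have hln : ∀ a, ((lam * n a : ℝ) : ℂ) ≠ 0 := fun a => by
    exact_mod_cast (mul_pos hl (hn a)).ne'
  -- the inverse of P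
  have hPinv : ((lam : ℂ) • diagonal (fun a => (n a : ℂ)) + vecMulVec u (star u))⁻¹ =
      diagonal (fun a => (((lam * n a : ℝ) : ℂ))⁻¹) - (c : ℂ) • vecMulVec v (star v) := by
    have e1 : (lam : ℂ) • diagonal (fun a => (n a : ℂ)) + vecMulVec u (star u) =
        diagonal (fun a => ((lam * n a : ℝ) : ℂ)) - (-1 : ℂ) • vecMulVec u (star u) := by
      rw [neg_smul, one_smul, sub_neg_eq_add]
      congr 1
      ext i j
      by_cases hij : i = j
      · subst hij; simp
      · simp [hij]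
    rw [e1, sm_inv _ _ _ _ hln (c : ℂ)]
    · rw [sub_eq_add_neg, ← neg_smul]
      congr 2
      · ring
      · ext i j
        simp only [vecMulVec_apply, Pi.star_apply, hv, star_div₀]
        rw [show (star ((lam * n j : ℝ) : ℂ)) = ((lam * n j : ℝ) : ℂ) from conj_ofReal _]
        ring
    · have : ∑ i, (star u) i * u i * (((lam * n i : ℝ) : ℂ))⁻¹ = (s0 : ℂ) := by
        rw [hs0]
        push_cast
        refine Finset.sum_congr rfl fun i _ => ?_
        rw [Pi.star_apply, Complex.normSq_eq_conj_mul_self,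
          show star (u i) = (starRingEnd ℂ) (u i) from rfl]
        ring
      rw [this]
      have h := hcs
      have : (c : ℂ) * (1 + (s0 : ℂ)) = 1 := by exact_mod_cast h
      linear_combination this
  -- the functions
  have hα : ∀ a, 0 < (lam * n a)⁻¹ := fun a => inv_pos.2 (mul_pos hl (hn a))
  have hben : ∀ a, ∀ i, 0 ≤ be i * n a := fun a i => mul_nonneg (hbe i) (hn a).le
  set d : κ → ℂ → ℂ := fun a z => (((lam * n a)⁻¹ : ℝ) : ℂ) - ∑ i, (y i : ℂ) / (z - ((be i * n a : ℝ) : ℂ))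
    with hd
  have hD := fun a => stiE_recip ((lam * n a)⁻¹) (hα a) y (fun i => be i * n a) (fun i => (hy i).le)
    (hben a)
  have hR := fun a => ev_recip ((lam * n a)⁻¹) (hα a) y (fun i => be i * n a) (fun i => (hy i).le)
    (hben a)
  choose g h hg hh hev using hR
  have hE := stiE_recip c hc0 (fun q : κ × J => c * normSq (v q.1) * g q.1 q.2)
    (fun q => h q.1 q.2) (fun q => mul_nonneg (mul_nonneg hc0.le (normSq_nonneg _)) (hg _ _))
    (fun q => hh _ _)
  set E : ℂ → ℂ := fun z => ((c : ℂ) - ∑ q : κ × J, ((c * normSq (v q.1) * g q.1 q.2 : ℝ) : ℂ) /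
    (z - (h q.1 q.2 : ℂ)))⁻¹ with hEdef
  set K : J → κ → κ → ℝ := fun j a b => y j * (c ^ 2 * (normSq (v a) * normSq (v b))) *
    (be j ^ 2 * (n a - n b) ^ 2) with hK
  have hK0 : ∀ j a b, 0 ≤ K j a b := fun j a b => by
    have := (hy j).le
    have := normSq_nonneg (v a)
    have := normSq_nonneg (v b)
    rw [hK]; positivity
  set BB : J → κ → κ → ℂ → ℂ := fun j a b z =>
    (((z - ((be j * n a : ℝ) : ℂ)) * (z - ((be j * n b : ℝ) : ℂ)))⁻¹) ^ 2 with hBB
  set R : ℂ → ℂ := fun z => ∑ j, ∑ a, ∑ b, (K j a b : ℂ) *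
    (BB j a b z * (d a z)⁻¹ * (d a z)⁻¹ * (d b z)⁻¹ * (d b z)⁻¹ * E z * E z) with hRdef
  have hRgen : GenE R := by
    refine GenE.sum _ fun j _ => GenE.sum _ fun a _ => GenE.sum _ fun b _ => ?_
    rcases eq_or_lt_of_le (hbe j) with h0 | h0
    · refine GenE.zero.congr ⟨1, one_pos, 0, fun z _ => ?_⟩
      have : K j a b = 0 := by rw [hK]; simp [← h0]
      simp only [this]
      simp
    · refine GenE.smul ?_ (hK0 j a b)
      exact ((((((GenE.base (mul_pos h0 (hn a)) (mul_pos h0 (hn b))).mul (hD a).2).mul (hD a).2).mul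
        (hD b).2).mul (hD b).2).mul hE.2).mul hE.2
  refine hRgen.congr ?_
  have hnode : EvC (fun z => ∀ j, ∀ a, z - ((be j * n a : ℝ) : ℂ) ≠ 0) :=
    EvC.all fun j => EvC.all fun a => EvC.node (hben a j)
  refine ((hnode.and (EvC.all fun a => (hD a).1)).and ((EvC.all hev).and hE.1)).mono ?_
  rintro z ⟨⟨hz1, hz2⟩, hz3, hz4⟩
  have hdne : ∀ a, d a z ≠ 0 := hz2
  have hsum : (1 : ℂ) - (c : ℂ) * ∑ i, (star v) i * v i * (d i z)⁻¹ =
      (c : ℂ) - ∑ q : κ × J, ((c * normSq (v q.1) * g q.1 q.2 : ℝ) : ℂ) / (z - (h q.1 q.2 : ℂ)) := by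
    have e1 : ∀ i, (star v) i * v i * (d i z)⁻¹ =
        ((normSq (u i) / (lam * n i) : ℝ) : ℂ) + ∑ k, ((normSq (v i) * g i k : ℝ) : ℂ) / (z - (h i k : ℂ)) := by
      intro i
      have e2 : (star v) i * v i = (normSq (v i) : ℂ) := by
        rw [Pi.star_apply, Complex.normSq_eq_conj_mul_self,
          show star (v i) = (starRingEnd ℂ) (v i) from rfl]
      have e3 : (d i z)⁻¹ = _ := hz3 i
      rw [e2, e3, mul_add, Finset.mul_sum]
      congr 1
      · have h1 : normSq (v i) * ((lam * n i)⁻¹)⁻¹ = normSq (u i) / (lam * n i) := by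
          rw [hv]
          simp only
          rw [map_div₀, normSq_ofReal]
          have := (mul_pos hl (hn i)).ne'
          field_simp
        exact_mod_cast h1
      · refine Finset.sum_congr rfl fun k _ => ?_
        push_cast
        ring
    simp only [e1, Finset.sum_add_distrib, mul_add]
    rw [Fintype.sum_prod_type]
    have e4 : (c : ℂ) * ∑ i, ((normSq (u i) / (lam * n i) : ℝ) : ℂ) = 1 - (c : ℂ) := by
      have h1 : ∑ i, ((normSq (u i) / (lam * n i) : ℝ) : ℂ) = (s0 : ℂ) := by rw [hs0]; push_cast; rfl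
      have h2 : (c : ℂ) * (1 + (s0 : ℂ)) = 1 := by exact_mod_cast hcs
      rw [h1]
      linear_combination h2
    rw [e4, Finset.mul_sum]
    have e5 : ∑ i, (c : ℂ) * ∑ k, ((normSq (v i) * g i k : ℝ) : ℂ) / (z - (h i k : ℂ)) =
        ∑ i, ∑ k, ((c * normSq (v i) * g i k : ℝ) : ℂ) / (z - (h i k : ℂ)) := by
      refine Finset.sum_congr rfl fun i _ => ?_
      rw [Finset.mul_sum]
      refine Finset.sum_congr rfl fun k _ => ?_
      push_cast
      ring
    rw [e5]
    ring
  have hE1 : E z * (1 - (c : ℂ) * ∑ i, (star v) i * v i * (d i z)⁻¹) = 1 := by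
    rw [hsum, hEdef]
    exact inv_mul_cancel₀ hz4
  have hTT : TT ((lam : ℂ) • diagonal (fun a => (n a : ℂ)) + vecMulVec u (star u))
      (diagonal fun a => (n a : ℂ)) be y z = diagonal (fun i => (d i z)⁻¹) +
        ((c : ℂ) * E z) • vecMulVec (fun i => (d i z)⁻¹ * v i) (fun i => (d i z)⁻¹ * (star v) i) := by
    unfold TT
    rw [hPinv, ← sm_inv (fun i => d i z) v (star v) (c : ℂ) hdne (E z) hE1]
    congr 1
    rw [sub_right_comm]
    congr 1
    have e1 : ∀ i, SS (diagonal fun a => (n a : ℂ)) (be i) z =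
        diagonal fun a => (z - ((be i * n a : ℝ) : ℂ))⁻¹ := fun i => SS_diag n (be i) z (hz1 i)
    simp only [e1]
    ext a b
    by_cases hab : a = b
    · subst hab
      simp [hd, Matrix.sum_apply, div_eq_mul_inv]
    · simp [Matrix.sum_apply, hab]
  unfold FF
  rw [hRdef]
  refine Finset.sum_congr rfl fun j _ => ?_
  rw [SS_diag n (be j) z (hz1 j), comm_trace, Finset.mul_sum]
  refine Finset.sum_congr rfl fun a _ => ?_
  rw [Finset.mul_sum]
  refine Finset.sum_congr rfl fun b _ => ?_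
  by_cases hab : a = b
  · subst hab
    have : K j a a = 0 := by rw [hK]; simp
    simp [this]
  · have hba : b ≠ a := Ne.symm hab
    rw [hTT]
    have e1 : (diagonal (fun i => (d i z)⁻¹) + ((c : ℂ) * E z) • vecMulVec (fun i => (d i z)⁻¹ * v i)
        (fun i => (d i z)⁻¹ * (star v) i)) a b = (c : ℂ) * E z * ((d a z)⁻¹ * v a * ((d b z)⁻¹ * star (v b))) := by
      simp [Matrix.add_apply, vecMulVec_apply, hab]
    have e2 : (diagonal (fun i => (d i z)⁻¹) + ((c : ℂ) * E z) • vecMulVec (fun i => (d i z)⁻¹ * v i)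
        (fun i => (d i z)⁻¹ * (star v) i)) b a = (c : ℂ) * E z * ((d b z)⁻¹ * v b * ((d a z)⁻¹ * star (v a))) := by
      simp [Matrix.add_apply, vecMulVec_apply, hba]
    rw [e1, e2]
    have na : (normSq (v a) : ℂ) = star (v a) * v a := Complex.normSq_eq_conj_mul_self
    have nb : (normSq (v b) : ℂ) = star (v b) * v b := Complex.normSq_eq_conj_mul_self
    have hKc : (K j a b : ℂ) = (y j : ℂ) * ((c : ℂ) ^ 2 * (star (v a) * v a * (star (v b) * v b))) *
        ((be j : ℂ) ^ 2 * ((n a : ℂ) - n b) ^ 2) := by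
      rw [hK]
      push_cast
      rw [na, nb]
    have hs : (z - ((be j * n a : ℝ) : ℂ))⁻¹ - (z - ((be j * n b : ℝ) : ℂ))⁻¹ =
        (be j : ℂ) * ((n a : ℂ) - n b) * ((z - ((be j * n a : ℝ) : ℂ)) * (z - ((be j * n b : ℝ) : ℂ)))⁻¹ := by
      have h1 := hz1 j a
      have h2 := hz1 j b
      push_cast at h1 h2 ⊢
      field_simp
      ring
    rw [hKc, hs]
    ring

end Pool.Agent.Lib_helper86.OPS
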