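import Pool.Agent.Lib_helper86.OPS.PairA

/-!
# MP_859019, ONE PURE STATE, positivity (II), pair (a) for a general `N`
-/

set_option autoImplicit false

open scoped BigOperators Real Topology Interval ComplexOrder
open Complex MeasureTheory Set Filter Matrix

namespace Pool.Agent.Lib_helper86.OPS

variable {κ : Type*} [Fintype κ] [DecidableEq κ] {J : Type*} [Fintype J] [DecidableEq J]

lemma exists_unitary {A : Matrix κ κ ℂ} (hA : A.IsHermitian) :
    ∃ U : Matrix κ κ ℂ, Uᴴ * U = 1 ∧ U * Uᴴ = 1 ∧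
      Uᴴ * A * U = diagonal (fun a => (hA.eigenvalues a : ℂ)) := by
  refine ⟨(hA.eigenvectorUnitary : Matrix κ κ ℂ), ?_, ?_, ?_⟩
  · exact Unitary.coe_star_mul_self _
  · exact Unitary.coe_mul_star_self _
  · have := hA.conjStarAlgAut_star_eigenvectorUnitary
    rw [Unitary.conjStarAlgAut_star_apply] at this
    exact this

lemma conj_vecMulVec (U : Matrix κ κ ℂ) (u : κ → ℂ) :
    Uᴴ * vecMulVec u (star u) * U = vecMulVec (Uᴴ *ᵥ u) (star (Uᴴ *ᵥ u)) := by
  rw [Matrix.mul_vecMulVec, Matrix.vecMulVec_mul]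
  congr 1
  rw [star_mulVec, conjTranspose_conjTranspose]

theorem pairA {N : Matrix κ κ ℂ} (hN : N.PosDef) (u : κ → ℂ) (lam : ℝ) (hl : 0 < lam)
    (be y : J → ℝ) (hbe : ∀ j, 0 ≤ be j) (hy : ∀ j, 0 < y j) :
    GenE (FF ((lam : ℂ) • N + vecMulVec u (star u)) N be y) := by
  obtain ⟨U, h1, h2, h3⟩ := exists_unitary hN.1
  have h := pairA_diag hN.1.eigenvalues (fun a => hN.eigenvalues_pos a) (Uᴴ *ᵥ u) lam hl be y hbe hy
  refine h.congr ⟨1, one_pos, 0, fun z _ => ?_⟩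
  beta_reduce
  rw [← FF_conj h1 h2 ((lam : ℂ) • N + vecMulVec u (star u)) N be y z]
  rw [Matrix.mul_add, Matrix.add_mul, conj_vecMulVec, Matrix.mul_smul, Matrix.smul_mul, h3]

end Pool.Agent.Lib_helper86.OPS
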