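import Pool.Agent.Lib_helper86.OPS.PairA2

/-!
# MP_859019, ONE PURE STATE, positivity (II), pair (b): `Q = u uᴴ`
-/

set_option autoImplicit false

open scoped BigOperators Real Topology Interval ComplexOrder
open Complex MeasureTheory Set Filter Matrix

namespace Pool.Agent.Lib_helper86.OPS

variable {κ : Type*} [Fintype κ] [DecidableEq κ] {J : Type*} [Fintype J] [DecidableEq J]

/-- a double sum with only one row and one column -/
lemma cross_sum (a0 : κ) (G : κ → κ → ℂ) (X : κ → ℂ) (h00 : G a0 a0 = 0)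
    (h1 : ∀ b, b ≠ a0 → G a0 b = X b) (h2 : ∀ a, a ≠ a0 → G a a0 = X a)
    (h3 : ∀ a b, a ≠ a0 → b ≠ a0 → G a b = 0) (hX : X a0 = 0) :
    ∑ a, ∑ b, G a b = ∑ b, 2 * X b := by
  have e : ∀ a b, G a b = (if a = a0 then X b else 0) + (if b = a0 then X a else 0) := by
    intro a b
    by_cases ha : a = a0
    · by_cases hb : b = a0
      · subst ha; rw [hb, h00]; simp [hX]
      · subst ha; rw [h1 b hb]; simp [hb]
    · by_cases hb : b = a0
      · subst hb; rw [h2 a ha]; simp [ha]
      · rw [h3 a b ha hb]; simp [ha, hb]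
  simp only [e, Finset.sum_add_distrib, Finset.sum_ite_eq', Finset.mem_univ, if_true]
  have e2 : ∑ a, ∑ b, (if a = a0 then X b else 0) = ∑ b, X b := by
    rw [Finset.sum_comm]
    simp
  rw [e2, ← Finset.sum_add_distrib]
  exact Finset.sum_congr rfl fun b _ => by ring

/-- inverse of an arrow matrix -/
lemma arrow_inv (a0 : κ) (L : Matrix κ κ ℂ) (l : κ → ℂ) (hl : ∀ a, a ≠ a0 → l a ≠ 0)
    (hL : ∀ a b, a ≠ a0 → b ≠ a0 → L a b = if a = b then l a else 0) (t : ℂ)
    (ht : t * (L a0 a0 - ∑ a, if a = a0 then 0 else L a0 a * L a a0 * (l a)⁻¹) = 1) :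
    L⁻¹ = Matrix.of fun a b => (if a = b then (if a = a0 then 0 else (l a)⁻¹) else 0) +
      t * (if a = a0 then 1 else -(L a a0 * (l a)⁻¹)) * (if b = a0 then 1 else -(L a0 b * (l b)⁻¹)) := by
  refine Matrix.inv_eq_right_inv ?_
  set ξ : κ → ℂ := fun a => if a = a0 then 1 else -(L a a0 * (l a)⁻¹) with hξ
  set η : κ → ℂ := fun b => if b = a0 then 1 else -(L a0 b * (l b)⁻¹) with hη
  have hLξ : ∀ a, ∑ k, L a k * ξ k = if a = a0 then
      (L a0 a0 - ∑ a, if a = a0 then 0 else L a0 a * L a a0 * (l a)⁻¹) else 0 := by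
    intro a
    by_cases ha : a = a0
    · subst ha
      rw [if_pos rfl]
      have e : ∀ k, L a k * ξ k = (if k = a then L a a else 0) -
          (if k = a then 0 else L a k * L k a * (l k)⁻¹) := by
        intro k
        by_cases hk : k = a
        · subst hk; simp [hξ]
        · simp [hξ, hk]; ring
      simp only [e, Finset.sum_sub_distrib, Finset.sum_ite_eq', Finset.mem_univ, if_true]
    · rw [if_neg ha]
      have e : ∀ k, L a k * ξ k = (if k = a0 then L a a0 else 0) + (if k = a then -(L a a0) else 0) := by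
        intro k
        by_cases hk : k = a0
        · subst hk; simp [hξ, Ne.symm ha]
        · rw [hL a k ha hk]
          by_cases hak : a = k
          · subst hak
            have := hl a ha
            simp [hξ, ha]
            field_simp
          · have : ¬ k = a := fun h => hak h.symm
            simp [hk, hak, this]
      simp only [e, Finset.sum_add_distrib, Finset.sum_ite_eq', Finset.mem_univ, if_true]
      ring
  ext a b
  rw [Matrix.mul_apply]
  simp only [Matrix.of_apply]
  have e1 : ∀ k, L a k * ((if k = b then (if k = a0 then 0 else (l k)⁻¹) else 0) + t * ξ k * η b) =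
      (if k = b then L a b * (if b = a0 then 0 else (l b)⁻¹) else 0) + t * η b * (L a k * ξ k) := by
    intro k
    by_cases hk : k = b
    · subst hk; simp only [if_true]; ring
    · simp only [if_neg hk]; ring
  have e2 : ∑ k, L a k * ((if k = b then (if k = a0 then 0 else (l k)⁻¹) else 0) + t * ξ k * η b) =
      L a b * (if b = a0 then 0 else (l b)⁻¹) + t * η b * (if a = a0 then
      (L a0 a0 - ∑ a, if a = a0 then 0 else L a0 a * L a a0 * (l a)⁻¹) else 0) := by
    simp only [e1, Finset.sum_add_distrib, Finset.sum_ite_eq', Finset.mem_univ, if_true,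
      ← Finset.mul_sum, hLξ]
  rw [e2, Matrix.one_apply]
  by_cases ha : a = a0
  · subst ha
    rw [if_pos rfl]
    by_cases hb : b = a
    · subst hb
      simp only [if_true, hη]
      linear_combination ht
    · have hab : ¬ a = b := fun h => hb h.symm
      simp only [if_neg hb, if_neg hab, hη]
      linear_combination (-(L a b * (l b)⁻¹)) * ht
  · rw [if_neg ha, mul_zero, add_zero]
    by_cases hb : b = a0
    · subst hb
      simp [ha]
    · rw [hL a b ha hb, if_neg hb]
      by_cases hab : a = b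
      · subst hab
        simp [hl a ha]
      · simp [hab]

/-- the arrow case -/
theorem pairB_arrow (a0 : κ) (q : ℝ) (hq : 0 < q) {P : Matrix κ κ ℂ} (hP : P.PosDef) (γ : κ → ℝ)
    (hγ : ∀ a, a ≠ a0 → 0 < γ a)
    (harrow : ∀ a b, a ≠ a0 → b ≠ a0 → P⁻¹ a b = if a = b then (γ a : ℂ) else 0)
    (be y : J → ℝ) (hbe : ∀ j, 0 ≤ be j) (hy : ∀ j, 0 < y j) :
    GenE (FF P (diagonal fun a => ((if a = a0 then q else 0 : ℝ) : ℂ)) be y) := by
  have hB : (P⁻¹).PosDef := hP.inv
  have hBh : ∀ a b, P⁻¹ a b = star (P⁻¹ b a) := fun a b => by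
    have := congrFun (congrFun hB.1 a) b
    rw [conjTranspose_apply] at this
    exact this.symm
  set β : κ → ℂ := fun a => P⁻¹ a a0 with hβ
  set b0 : ℝ := (P⁻¹ a0 a0).re with hb0
  have hb0' : P⁻¹ a0 a0 = (b0 : ℂ) := by
    have h1 := hBh a0 a0
    have h2 : (starRingEnd ℂ) (P⁻¹ a0 a0) = P⁻¹ a0 a0 := h1.symm
    exact (Complex.conj_eq_iff_re.1 h2).symm
  have hγ' : ∀ a, a ≠ a0 → (γ a : ℂ) ≠ 0 := fun a ha => by exact_mod_cast (hγ a ha).ne'
  have hnn : ∀ a, P⁻¹ a0 a * P⁻¹ a a0 = (normSq (β a) : ℂ) := fun a => by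
    rw [hBh a0 a, Complex.normSq_eq_conj_mul_self]; rfl
  -- the Schur complement
  set α : ℝ := b0 - ∑ a, (if a = a0 then 0 else normSq (β a) / γ a) with hα
  have hα0 : 0 < α := by
    set x : κ → ℂ := fun a => if a = a0 then 1 else -(β a / γ a) with hx
    have hx0 : x ≠ 0 := fun h => by
      have := congrFun h a0
      simp [hx] at this
    have h := hB.dotProduct_mulVec_pos hx0
    have hmv : P⁻¹ *ᵥ x = fun a => if a = a0 then (α : ℂ) else 0 := by
      funext a
      rw [mulVec, dotProduct]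
      by_cases ha : a = a0
      · subst ha
        rw [if_pos rfl]
        have e : ∀ k, P⁻¹ a k * x k = (if k = a then (b0 : ℂ) else 0) -
            (if k = a then 0 else ((normSq (β k) / γ k : ℝ) : ℂ)) := by
          intro k
          by_cases hk : k = a
          · subst hk; simp [hx, hb0']
          · simp only [hx, if_neg hk]
            have h1 := hnn k
            push_cast
            rw [← h1]
            simp only [hβ]
            ring
        simp only [e, Finset.sum_sub_distrib, Finset.sum_ite_eq', Finset.mem_univ, if_true]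
        rw [hα]
        push_cast
        congr 1
        refine Finset.sum_congr rfl fun k _ => ?_
        split_ifs <;> simp
      · rw [if_neg ha]
        have e : ∀ k, P⁻¹ a k * x k = (if k = a0 then β a else 0) + (if k = a then -(β a) else 0) := by
          intro k
          by_cases hk : k = a0
          · subst hk; simp [hx, hβ, Ne.symm ha]
          · rw [harrow a k ha hk]
            by_cases hak : a = k
            · subst hak
              have := hγ' a ha
              simp only [hx, if_true, if_neg ha, zero_add]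
              field_simp
            · have : ¬ k = a := fun h => hak h.symm
              simp [hk, hak, this]
        simp only [e, Finset.sum_add_distrib, Finset.sum_ite_eq', Finset.mem_univ, if_true]
        ring
    rw [hmv] at h
    have h2 : star x ⬝ᵥ (fun a => if a = a0 then (α : ℂ) else 0) = (α : ℂ) := by
      rw [dotProduct]
      simp [hx]
    rw [h2] at h
    exact_mod_cast h
  set Y : ℝ := ∑ j, y j with hY
  have hY0 : 0 ≤ Y := Finset.sum_nonneg fun j _ => (hy j).le
  -- the function t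
  set m' : J ⊕ κ → ℝ := Sum.elim y (fun a => if a = a0 then 0 else normSq (β a) * Y / γ a ^ 2) with hm'
  set w' : J ⊕ κ → ℝ := Sum.elim (fun i => be i * q) (fun a => if a = a0 then 0 else Y / γ a) with hw'
  have hT := stiE_recip α hα0 m' w' (by
    rintro (i | a)
    · exact (hy i).le
    · simp only [hm', Sum.elim_inr]
      split_ifs with h
      · exact le_rfl
      · have := hγ a h
        have := normSq_nonneg (β a)
        positivity) (by
    rintro (i | a)
    · exact mul_nonneg (hbe i) hq.le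
    · simp only [hw', Sum.elim_inr]
      split_ifs with h
      · exact le_rfl
      · have := hγ a h
        positivity)
  set t : ℂ → ℂ := fun z => ((α : ℂ) - ∑ i, (m' i : ℂ) / (z - (w' i : ℂ)))⁻¹ with ht
  set K : J → κ → ℝ := fun j a => if a = a0 then 0 else
    y j * (2 * ((be j * q) ^ 2 * normSq (β a) / γ a ^ 2)) with hK
  set R : ℂ → ℂ := fun z => ∑ j, ∑ a, (K j a : ℂ) *
    ((((z - ((be j * q : ℝ) : ℂ)) * (z - ((Y / γ a : ℝ) : ℂ)))⁻¹) ^ 2 * t z * t z) with hR
  have hRgen : GenE R := by
    refine GenE.sum _ fun j _ => GenE.sum _ fun a _ => ?_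
    by_cases ha : a = a0
    · refine GenE.zero.congr ⟨1, one_pos, 0, fun z _ => ?_⟩
      have : K j a = 0 := by rw [hK]; simp [ha]
      simp only [this]
      simp
    · have hga := hγ a ha
      have hK0 : 0 ≤ K j a := by
        rw [hK]
        simp only [if_neg ha]
        have := (hy j).le
        have := normSq_nonneg (β a)
        positivity
      rcases eq_or_lt_of_le (hbe j) with h0 | h0
      · refine GenE.zero.congr ⟨1, one_pos, 0, fun z _ => ?_⟩
        have : K j a = 0 := by rw [hK]; simp [← h0]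
        simp only [this]
        simp
      · refine GenE.smul ?_ hK0
        have hYp : 0 < Y := by
          have : y j ≤ Y := Finset.single_le_sum (f := y) (fun i _ => (hy i).le) (Finset.mem_univ j)
          have := hy j
          linarith
        exact ((GenE.base (mul_pos h0 hq) (div_pos hYp hga)).mul hT.2).mul hT.2
  refine hRgen.congr ?_
  have hn1 : EvC (fun z => ∀ j, z - ((be j * q : ℝ) : ℂ) ≠ 0) :=
    EvC.all fun j => EvC.node (mul_nonneg (hbe j) hq.le)
  have hn2 : EvC (fun z => ∀ a, a ≠ a0 → z - ((Y / γ a : ℝ) : ℂ) ≠ 0) :=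
    EvC.all fun a => by
      by_cases ha : a = a0
      · exact EvC.ne_zero.mono fun z _ h => absurd ha h
      · exact (EvC.node (div_nonneg hY0 (hγ a ha).le)).mono fun z hz _ => hz
  refine ((hn1.and hn2).and (EvC.ne_zero.and hT.1)).mono ?_
  rintro z ⟨⟨hz1, hz2⟩, hz0, hz3⟩
  -- the resolvents
  have hnode : ∀ j, ∀ a : κ, z - ((be j * (if a = a0 then q else 0) : ℝ) : ℂ) ≠ 0 := by
    intro j a
    by_cases ha : a = a0
    · simpa [ha] using hz1 j
    · simpa [ha] using hz0
  have hSS : ∀ j, SS (diagonal fun a => ((if a = a0 then q else 0 : ℝ) : ℂ)) (be j) z =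
      diagonal fun a => (z - ((be j * (if a = a0 then q else 0) : ℝ) : ℂ))⁻¹ := fun j =>
    SS_diag (fun a => if a = a0 then q else 0) (be j) z (hnode j)
  set L : Matrix κ κ ℂ := P⁻¹ - ∑ i, (y i : ℂ) • SS (diagonal fun a => ((if a = a0 then q else 0 : ℝ) : ℂ)) (be i) z
    with hL
  set l : κ → ℂ := fun a => (γ a : ℂ) - (Y : ℂ) / z with hl
  have hLab : ∀ a b, L a b = P⁻¹ a b - (if a = b then (if a = a0 then
      ∑ i, (y i : ℂ) / (z - ((be i * q : ℝ) : ℂ)) else (Y : ℂ) / z) else 0) := by
    intro a b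
    rw [hL]
    simp only [hSS, Matrix.sub_apply, Matrix.sum_apply, Matrix.smul_apply, smul_eq_mul]
    congr 1
    by_cases hab : a = b
    · subst hab
      rw [if_pos rfl]
      by_cases ha : a = a0
      · simp [ha, div_eq_mul_inv]
      · simp [ha, hY, div_eq_mul_inv, Finset.sum_mul]
    · simp [hab]
  have hlne : ∀ a, a ≠ a0 → l a ≠ 0 := by
    intro a ha h0
    have h1 := hz2 a ha
    have h2 := hγ' a ha
    apply h1
    rw [hl] at h0
    have h3 : (γ a : ℂ) = Y / z := sub_eq_zero.1 h0
    push_cast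
    rw [h3]
    have h4 : (Y : ℂ) ≠ 0 := fun h => h2 (by rw [h3, h, zero_div])
    field_simp
    ring
  have hlinv : ∀ a, a ≠ a0 → (l a)⁻¹ = (γ a : ℂ)⁻¹ * (z * (z - ((Y / γ a : ℝ) : ℂ))⁻¹) := by
    intro a ha
    have h1 := hz2 a ha
    have h2 := hγ' a ha
    have h3 := hlne a ha
    have e : l a = (γ a : ℂ) * (z - ((Y / γ a : ℝ) : ℂ)) / z := by
      rw [hl]
      push_cast
      field_simp
    rw [e, inv_div, div_eq_mul_inv, _root_.mul_inv_rev]
    ring
  have hLoff : ∀ a b, a ≠ a0 → b ≠ a0 → L a b = if a = b then l a else 0 := by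
    intro a b ha hb
    rw [hLab, harrow a b ha hb]
    by_cases hab : a = b
    · simp [hab, hl, hb]
    · simp [hab]
  have hLcol : ∀ a, a ≠ a0 → L a a0 = β a := fun a ha => by
    rw [hLab, if_neg ha, sub_zero]
  have hLrow : ∀ a, a ≠ a0 → L a0 a * L a a0 = (normSq (β a) : ℂ) := fun a ha => by
    rw [hLab, hLab, if_neg ha, if_neg (Ne.symm ha), sub_zero, sub_zero, hnn]
  have htL : t z * (L a0 a0 - ∑ a, if a = a0 then 0 else L a0 a * L a a0 * (l a)⁻¹) = 1 := by
    have e : (L a0 a0 - ∑ a, if a = a0 then 0 else L a0 a * L a a0 * (l a)⁻¹) =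
        (α : ℂ) - ∑ i, (m' i : ℂ) / (z - (w' i : ℂ)) := by
      rw [Fintype.sum_sum_type, hLab a0 a0, if_pos rfl, if_pos rfl, hb0']
      have e1 : ∀ a, (if a = a0 then 0 else L a0 a * L a a0 * (l a)⁻¹) =
          ((if a = a0 then 0 else normSq (β a) / γ a : ℝ) : ℂ) +
            (m' (Sum.inr a) : ℂ) / (z - (w' (Sum.inr a) : ℂ)) := by
        intro a
        by_cases ha : a = a0
        · simp [ha, hm', hw']
        · have h1 := hz2 a ha
          have h2 := hγ' a ha
          simp only [if_neg ha, hm', hw', Sum.elim_inr]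
          rw [hLrow a ha, hlinv a ha]
          have h3 : z = (z - ((Y / γ a : ℝ) : ℂ)) + ((Y / γ a : ℝ) : ℂ) := by ring
          have h4 : z * (z - ((Y / γ a : ℝ) : ℂ))⁻¹ = 1 + ((Y / γ a : ℝ) : ℂ) * (z - ((Y / γ a : ℝ) : ℂ))⁻¹ := by
            nth_rewrite 1 [h3]
            rw [add_mul, mul_inv_cancel₀ h1]
          rw [h4]
          push_cast
          field_simp
      simp only [e1, Finset.sum_add_distrib]
      rw [hα]
      have e2 : ∀ i, (m' (Sum.inl i) : ℂ) / (z - (w' (Sum.inl i) : ℂ)) =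
          (y i : ℂ) / (z - ((be i * q : ℝ) : ℂ)) := fun i => rfl
      simp only [e2]
      push_cast
      ring
    rw [e]
    exact inv_mul_cancel₀ hz3
  obtain ⟨T, hT1, hT2⟩ : ∃ T : Matrix κ κ ℂ,
      TT P (diagonal fun a => ((if a = a0 then q else 0 : ℝ) : ℂ)) be y z = T ∧
      ∀ a b, T a b = (if a = b then (if a = a0 then 0 else (l a)⁻¹) else 0) +
      t z * (if a = a0 then 1 else -(L a a0 * (l a)⁻¹)) * (if b = a0 then 1 else -(L a0 b * (l b)⁻¹)) :=
    ⟨_, arrow_inv a0 L l hlne hLoff (t z) htL, fun a b => rfl⟩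
  unfold FF
  rw [hR]
  refine Finset.sum_congr rfl fun j _ => ?_
  set s : κ → ℂ := fun a => (z - ((be j * (if a = a0 then q else 0) : ℝ) : ℂ))⁻¹ with hs
  have hs1 : ∀ a, a ≠ a0 → s a = z⁻¹ := fun a ha => by simp [hs, ha]
  have hs0 : s a0 = (z - ((be j * q : ℝ) : ℂ))⁻¹ := by simp [hs]
  have hmain : ∑ a, ∑ b, (s a - s b) ^ 2 * (T a b * T b a) = ∑ b, 2 * (if b = a0 then 0 else
      (s a0 - z⁻¹) ^ 2 * (t z * t z * (normSq (β b) : ℂ) * ((l b)⁻¹) ^ 2)) := by
    refine cross_sum a0 _ _ ?_ ?_ ?_ ?_ ?_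
    · simp
    · intro b hb
      have h := hLrow b hb
      simp only [hT2, if_neg hb, if_neg (Ne.symm hb), if_true, hs1 b hb, zero_add]
      linear_combination (s a0 - z⁻¹) ^ 2 * (t z * t z * ((l b)⁻¹) ^ 2) * h
    · intro a ha
      have h := hLrow a ha
      simp only [hT2, if_neg ha, if_neg (Ne.symm ha), if_true, hs1 a ha, zero_add]
      linear_combination (s a0 - z⁻¹) ^ 2 * (t z * t z * ((l a)⁻¹) ^ 2) * h
    · intro a b ha hb
      rw [hs1 a ha, hs1 b hb]
      ring
    · simp
  rw [hT1, hSS j, comm_trace]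
  have hmain' : ∑ a, ∑ b, ((z - ((be j * (if a = a0 then q else 0) : ℝ) : ℂ))⁻¹ -
      (z - ((be j * (if b = a0 then q else 0) : ℝ) : ℂ))⁻¹) ^ 2 * (T a b * T b a) = _ := hmain
  rw [hmain']
  · rw [Finset.mul_sum]
    refine Finset.sum_congr rfl fun a _ => ?_
    by_cases ha : a = a0
    · simp [hK, ha]
    · simp only [hK, if_neg ha]
      rw [hs0, hlinv a ha]
      have h1 := hz1 j
      have h2 := hz2 a ha
      have h3 := hγ' a ha
      have e3 : (z - ((be j * q : ℝ) : ℂ))⁻¹ - z⁻¹ = ((be j * q : ℝ) : ℂ) * (z⁻¹ * (z - ((be j * q : ℝ) : ℂ))⁻¹) := by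
        field_simp
        ring
      rw [e3]
      have e4 : z⁻¹ * z = 1 := inv_mul_cancel₀ hz0
      push_cast
      have e5 : (γ a : ℂ)⁻¹ * (γ a : ℂ) = 1 := inv_mul_cancel₀ h3
      rw [mul_inv]
      have e6 : ∀ A B C D E F G : ℂ, (A * (z⁻¹ * B)) ^ 2 * (C * C * D * ((E * (z * F)) ^ 2)) =
          (A * B * C * E * F) ^ 2 * D := by
        intro A B C D E F G
        linear_combination (A * B * C * E * F) ^ 2 * D * (z⁻¹ * z + 1) * e4
      rw [e6 _ _ _ _ _ _ 0]
      ring

end Pool.Agent.Lib_helper86.OPS
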