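import Pool.Agent.Lib_helper86.OPS.PairB

/-!
# MP_859019, ONE PURE STATE, positivity (II), pair (b) for a general `P` and `u`
-/

set_option autoImplicit false

open scoped BigOperators Real Topology Interval ComplexOrder
open Complex MeasureTheory Set Filter Matrix

namespace Pool.Agent.Lib_helper86.OPS

variable {κ : Type*} [Fintype κ] [DecidableEq κ] {J : Type*} [Fintype J] [DecidableEq J]

/-- a basis in which `u` is a multiple of a basis vector and the compression of `P⁻¹` to the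
orthogonal complement is diagonal -/
lemma arrow_basis {P : Matrix κ κ ℂ} (hP : P.PosDef) {u : κ → ℂ} (hu : u ≠ 0) :
    ∃ (U : Matrix κ κ ℂ) (a0 : κ) (q : ℝ) (γ : κ → ℝ), Uᴴ * U = 1 ∧ U * Uᴴ = 1 ∧ 0 < q ∧
      (∀ a, a ≠ a0 → 0 < γ a) ∧ (Uᴴ * P * U).PosDef ∧
      (∀ a b, a ≠ a0 → b ≠ a0 → (Uᴴ * P * U)⁻¹ a b = if a = b then (γ a : ℂ) else 0) ∧
      Uᴴ * vecMulVec u (star u) * U = diagonal fun a => ((if a = a0 then q else 0 : ℝ) : ℂ) := by
  set q : ℝ := ∑ a, normSq (u a) with hq
  have hq0 : 0 < q := by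
    obtain ⟨a, ha⟩ := Function.ne_iff.1 hu
    refine Finset.sum_pos' (fun a _ => normSq_nonneg _) ⟨a, Finset.mem_univ a, normSq_pos.2 ha⟩
  have hqc : (q : ℂ) ≠ 0 := by exact_mod_cast hq0.ne'
  set Pj : Matrix κ κ ℂ := 1 - (q : ℂ)⁻¹ • vecMulVec u (star u) with hPj
  have hvv : (vecMulVec u (star u))ᴴ = vecMulVec u (star u) := by
    ext i j
    simp [conjTranspose_apply, vecMulVec_apply, mul_comm]
  have hPiH : Pjᴴ = Pj := by
    rw [hPj, conjTranspose_sub, conjTranspose_one, conjTranspose_smul, hvv]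
    congr 2
    simp
  have hC : (Pj * P⁻¹ * Pj).IsHermitian := by
    have h1 : (P⁻¹)ᴴ = P⁻¹ := hP.inv.1
    unfold Matrix.IsHermitian
    rw [conjTranspose_mul, conjTranspose_mul, hPiH, h1, Matrix.mul_assoc]
  obtain ⟨U, h1, h2, h3⟩ := exists_unitary hC
  set γ : κ → ℝ := hC.eigenvalues with hγ
  set v : κ → ℂ := Uᴴ *ᵥ u with hv
  have hQ : Uᴴ * vecMulVec u (star u) * U = vecMulVec v (star v) := conj_vecMulVec U u
  have hP' : (Uᴴ * P * U).PosDef := by
    refine hP.conjTranspose_mul_mul_same ?_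
    intro x y hxy
    have := congrArg (fun w => Uᴴ *ᵥ w) hxy
    simpa [mulVec_mulVec, h1] using this
  set B : Matrix κ κ ℂ := (Uᴴ * P * U)⁻¹ with hB
  have hBp : B.PosDef := hP'.inv
  have hBe : B = Uᴴ * P⁻¹ * U := conj_inv h1 h2 P
  set Pk : Matrix κ κ ℂ := 1 - (q : ℂ)⁻¹ • vecMulVec v (star v) with hPk
  have hPie : Uᴴ * Pj * U = Pk := by
    rw [hPj, hPk, Matrix.mul_sub, Matrix.sub_mul, Matrix.mul_one, h1, Matrix.mul_smul,
      Matrix.smul_mul, hQ]
  have hPkH : Pkᴴ = Pk := by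
    rw [← hPie, conjTranspose_mul, conjTranspose_mul, hPiH, conjTranspose_conjTranspose,
      Matrix.mul_assoc]
  have hdiag : Pk * B * Pk = diagonal fun a => (γ a : ℂ) := by
    rw [← h3, ← hPie, hBe]
    have e : ∀ X Y : Matrix κ κ ℂ, Uᴴ * X * U * (Uᴴ * Y * U) = Uᴴ * (X * Y) * U := by
      intro X Y
      calc Uᴴ * X * U * (Uᴴ * Y * U) = Uᴴ * X * (U * Uᴴ) * Y * U := by simp only [Matrix.mul_assoc]
        _ = _ := by rw [h2, Matrix.mul_one, Matrix.mul_assoc Uᴴ X Y]
    rw [e, e]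
  have hvq : star v ⬝ᵥ v = (q : ℂ) := by
    have e1 : star u ⬝ᵥ u = (q : ℂ) := by
      rw [dotProduct, hq]
      push_cast
      refine Finset.sum_congr rfl fun a _ => ?_
      rw [Complex.normSq_eq_conj_mul_self]
      rfl
    rw [hv, star_mulVec, conjTranspose_conjTranspose, ← dotProduct_mulVec, mulVec_mulVec, h2,
      one_mulVec, e1]
  have hPiv : Pk *ᵥ v = 0 := by
    funext a
    have : (vecMulVec v (star v)) *ᵥ v = (q : ℂ) • v := by
      funext i
      rw [mulVec, dotProduct]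
      simp only [vecMulVec_apply, Pi.smul_apply, smul_eq_mul]
      rw [← hvq, dotProduct, Finset.sum_mul]
      exact Finset.sum_congr rfl fun j _ => by ring
    rw [hPk, sub_mulVec, one_mulVec, smul_mulVec, this]
    simp [hqc]
  have hγv : ∀ a, (γ a : ℂ) * v a = 0 := by
    intro a
    have h := congrArg (fun w => (Pk * B) *ᵥ w) hPiv
    simp only [mulVec_mulVec, hdiag, mulVec_zero] at h
    have := congrFun h a
    simpa [mulVec_diagonal] using this
  have hv0 : v ≠ 0 := by
    intro h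
    rw [h] at hvq
    simp at hvq
    exact hqc hvq.symm
  obtain ⟨a0, ha0⟩ := Function.ne_iff.1 hv0
  have ha0' : v a0 ≠ 0 := ha0
  have hγ0 : (γ a0 : ℂ) = 0 := (mul_eq_zero.1 (hγv a0)).resolve_right ha0'
  -- the column of `Pk` at `a0` vanishes
  have hcol : Pk *ᵥ (Pi.single a0 1) = 0 := by
    by_contra hne
    have h := hBp.dotProduct_mulVec_pos hne
    have e : star (Pk *ᵥ (Pi.single a0 1)) ⬝ᵥ (B *ᵥ (Pk *ᵥ (Pi.single a0 1))) =
        (Pk * B * Pk) a0 a0 := by
      rw [star_mulVec, hPkH, mulVec_mulVec, ← dotProduct_mulVec, mulVec_mulVec, ← Matrix.mul_assoc]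
      simp
    rw [e, hdiag] at h
    simp [hγ0] at h
  have hva : ∀ b, b ≠ a0 → v b = 0 := by
    intro b hb
    have h := congrFun hcol b
    have e : (Pk *ᵥ (Pi.single a0 1)) b = -((q : ℂ)⁻¹ * (v b * star (v a0))) := by
      rw [mulVec_single_one, hPk]
      simp [Matrix.col_apply, vecMulVec_apply, hb]
    rw [e] at h
    have h4 : (q : ℂ)⁻¹ * (v b * star (v a0)) = 0 := by simpa using h
    rcases mul_eq_zero.1 h4 with h5 | h5
    · exact absurd h5 (inv_ne_zero hqc)
    · rcases mul_eq_zero.1 h5 with h6 | h6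
      · exact h6
      · exact absurd (star_eq_zero.1 h6) ha0'
  have hPirow : ∀ a k, a ≠ a0 → Pk a k = if a = k then 1 else 0 := by
    intro a k ha
    rw [hPk]
    simp [vecMulVec_apply, hva a ha, Matrix.one_apply]
  have hPicol : ∀ k b, b ≠ a0 → Pk k b = if k = b then 1 else 0 := by
    intro k b hb
    rw [hPk]
    simp [vecMulVec_apply, hva b hb, Matrix.one_apply]
  have hBab : ∀ a b, a ≠ a0 → b ≠ a0 → B a b = if a = b then (γ a : ℂ) else 0 := by
    intro a b ha hb
    have h := congrFun (congrFun hdiag a) b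
    rw [Matrix.mul_apply] at h
    simp only [Matrix.mul_apply, hPirow _ _ ha, hPicol _ _ hb] at h
    simp only [ite_mul, one_mul, zero_mul, Finset.sum_ite_eq, Finset.mem_univ, if_true, mul_ite,
      mul_one, mul_zero, Finset.sum_ite_eq'] at h
    rw [h, diagonal_apply]
  refine ⟨U, a0, q, γ, h1, h2, hq0, ?_, hP', hBab, ?_⟩
  · intro a ha
    have h := hBp.dotProduct_mulVec_pos (x := Pi.single a 1) (by
      intro h
      have := congrFun h a
      simp at this)
    have e : star (Pi.single a (1 : ℂ) : κ → ℂ) ⬝ᵥ (B *ᵥ (Pi.single a 1)) = B a a := by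
      simp
    rw [e, hBab a a ha ha, if_pos rfl] at h
    exact_mod_cast h
  · rw [hQ]
    have hq' : star (v a0) * v a0 = (q : ℂ) := by
      rw [← hvq, dotProduct, Finset.sum_eq_single a0]
      · rfl
      · intro b _ hb
        rw [hva b hb, mul_zero]
      · intro h; exact absurd (Finset.mem_univ a0) h
    ext a b
    rw [vecMulVec_apply, diagonal_apply]
    by_cases ha : a = a0
    · by_cases hb : b = a0
      · subst ha; subst hb
        simp only [if_true, Pi.star_apply]
        rw [mul_comm, hq']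
      · have : ¬ a = b := fun h => hb (h ▸ ha)
        rw [if_neg this, Pi.star_apply, hva b hb]; simp
    · by_cases hab : a = b
      · subst hab
        simp [hva a ha, ha]
      · simp [hva a ha, hab]

theorem pairB {P : Matrix κ κ ℂ} (hP : P.PosDef) (u : κ → ℂ) (be y : J → ℝ) (hbe : ∀ j, 0 ≤ be j)
    (hy : ∀ j, 0 < y j) : GenE (FF P (vecMulVec u (star u)) be y) := by
  by_cases hu : u = 0
  · refine GenE.zero.congr (EvC.ne_zero.mono fun z hz => ?_)
    have hQ : vecMulVec u (star u) = 0 := by rw [hu]; ext; simp [vecMulVec_apply]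
    have hS : ∀ b : ℝ, SS (vecMulVec u (star u)) b z = z⁻¹ • (1 : Matrix κ κ ℂ) := by
      intro b
      unfold SS
      refine Matrix.inv_eq_right_inv ?_
      rw [hQ, smul_zero, sub_zero, Matrix.smul_mul, Matrix.mul_smul, Matrix.mul_one, smul_smul,
        mul_inv_cancel₀ hz, one_smul]
    unfold FF
    simp only [hS, Matrix.smul_mul, Matrix.mul_smul, Matrix.one_mul, Matrix.mul_one, sub_self]
    simp
  · obtain ⟨U, a0, q, γ, h1, h2, hq, hγ, hP', harr, hQ⟩ := arrow_basis hP hu
    have h := pairB_arrow a0 q hq hP' γ hγ harr be y hbe hy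
    refine h.congr ⟨1, one_pos, 0, fun z _ => ?_⟩
    beta_reduce
    rw [← FF_conj h1 h2 P (vecMulVec u (star u)) be y z, hQ]

end Pool.Agent.Lib_helper86.OPS
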