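import Pool.Agent.Lib_helper86.OPS.Gen

/-!
# MP_859019, ONE PURE STATE, positivity (II), part B: `1 / (α - Σ m / (z - w))`
-/

set_option autoImplicit false

open scoped BigOperators Real Topology Interval
open Complex MeasureTheory Set Filter Matrix

namespace Pool.Agent.Lib_helper86.OPS

/-- partial fractions of the reciprocal -/
lemma recip_identity {ι : Type*} [Fintype ι] [DecidableEq ι] (α : ℝ) (hα : 0 < α) (m w : ι → ℝ)
    (hm : ∀ i, 0 ≤ m i) (hw : ∀ i, 0 ≤ w i) :
    ∃ (g h : ι → ℝ), (∀ k, 0 ≤ g k) ∧ (∀ k, 0 ≤ h k) ∧ (∀ k, h k = 0 → g k = 0) ∧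
      ∀ z : ℂ, (∀ i, z - (w i : ℂ) ≠ 0) → (∀ k, z - (h k : ℂ) ≠ 0) →
        ((α : ℂ) - ∑ i, (m i : ℂ) / (z - (w i : ℂ))) *
          ((α : ℂ)⁻¹ * (1 + (α : ℂ)⁻¹ * ∑ k, (g k : ℂ) / (z - (h k : ℂ)))) = 1 := by
  set v : ι → ℝ := fun i => √(m i) with hv
  have hvv : ∀ i, v i * v i = m i := fun i => Real.mul_self_sqrt (hm i)
  set H : Matrix ι ι ℝ := diagonal w + α⁻¹ • vecMulVec v v with hHdef
  have hHij : ∀ i j, H i j = (if i = j then w i else 0) + α⁻¹ * (v i * v j) := by
    intro i j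
    simp [hHdef, Matrix.add_apply, diagonal_apply, vecMulVec_apply]
  have hH : H.IsHermitian := by
    ext i j
    rw [conjTranspose_apply, star_trivial, hHij, hHij]
    by_cases h : i = j
    · subst h; simp
    · rw [if_neg h, if_neg (Ne.symm h)]; ring
  set b : ι → ι → ℝ := fun k i => (hH.eigenvectorBasis k : EuclideanSpace ℝ ι) i with hb
  set h : ι → ℝ := hH.eigenvalues with hh
  set γ : ι → ℝ := fun k => ∑ i, b k i * v i with hγ
  have F1 : ∀ k i, ∑ j, H i j * b k j = h k * b k i := by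
    intro k i
    have := congrFun (hH.mulVec_eigenvectorBasis k) i
    simpa [mulVec, dotProduct] using this
  have F2 : ∀ i, ∑ k, b k i * γ k = v i := by
    intro i
    have h1 := hH.eigenvectorBasis.sum_repr (WithLp.toLp 2 v)
    have h2 := congrArg (fun x : EuclideanSpace ℝ ι => x i) h1
    simp only [hH.eigenvectorBasis.repr_apply_apply] at h2
    have h3 : ∀ k, inner ℝ (hH.eigenvectorBasis k) (WithLp.toLp 2 v : EuclideanSpace ℝ ι) = γ k := by
      intro k
      simp [PiLp.inner_apply, hγ, hb, mul_comm]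
    simp only [h3] at h2
    have h4 : (∑ k, γ k • hH.eigenvectorBasis k).ofLp i = v i := h2
    rw [← h4]
    simp [hb, mul_comm]
  have F3 : ∀ k, ∑ i, b k i * b k i = 1 := by
    intro k
    have h1 : inner ℝ (hH.eigenvectorBasis k) (hH.eigenvectorBasis k) = (1 : ℝ) := by
      rw [real_inner_self_eq_norm_sq, hH.eigenvectorBasis.norm_eq_one]; norm_num
    rw [PiLp.inner_apply] at h1
    rw [← h1]
    refine Finset.sum_congr rfl fun i _ => ?_
    simp only [hb]
    rw [real_inner_self_eq_norm_sq, Real.norm_eq_abs, sq_abs, sq]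
  have F4 : ∀ k, h k = ∑ i, w i * (b k i * b k i) + α⁻¹ * (γ k * γ k) := by
    intro k
    have h1 : ∑ i, b k i * (∑ j, H i j * b k j) = h k := by
      simp only [F1]
      calc ∑ i, b k i * (h k * b k i) = h k * ∑ i, b k i * b k i := by
            rw [Finset.mul_sum]; exact Finset.sum_congr rfl fun i _ => by ring
        _ = h k := by rw [F3, mul_one]
    rw [← h1]
    have h2 : ∀ i, ∑ j, H i j * b k j = w i * b k i + α⁻¹ * (v i * γ k) := by
      intro i
      simp only [hHij, add_mul, ite_mul, zero_mul, Finset.sum_add_distrib, Finset.sum_ite_eq,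
        Finset.mem_univ, if_true]
      congr 1
      rw [hγ]
      simp only [Finset.mul_sum]
      exact Finset.sum_congr rfl fun j _ => by ring
    simp only [h2, mul_add, Finset.sum_add_distrib]
    congr 1
    · exact Finset.sum_congr rfl fun i _ => by ring
    · calc ∑ i, b k i * (α⁻¹ * (v i * γ k)) = α⁻¹ * ((∑ i, b k i * v i) * γ k) := by
            rw [Finset.sum_mul, Finset.mul_sum]; exact Finset.sum_congr rfl fun i _ => by ring
        _ = _ := by rw [hγ]
  have hα' : (α : ℂ) ≠ 0 := by exact_mod_cast hα.ne'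
  refine ⟨fun k => γ k * γ k, h, fun k => mul_self_nonneg _, ?_, ?_, ?_⟩
  · intro k
    rw [F4]
    have : 0 ≤ ∑ i, w i * (b k i * b k i) :=
      Finset.sum_nonneg fun i _ => mul_nonneg (hw i) (mul_self_nonneg _)
    have := mul_nonneg (inv_nonneg.2 hα.le) (mul_self_nonneg (γ k))
    linarith
  · intro k hk
    rw [F4] at hk
    have h1 : 0 ≤ ∑ i, w i * (b k i * b k i) :=
      Finset.sum_nonneg fun i _ => mul_nonneg (hw i) (mul_self_nonneg _)
    have h2 := mul_nonneg (inv_nonneg.2 hα.le) (mul_self_nonneg (γ k))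
    have h3 : α⁻¹ * (γ k * γ k) = 0 := by linarith
    rcases mul_eq_zero.1 h3 with h | h
    · exact absurd h (inv_pos.2 hα).ne'
    · exact h
  · intro z hzw hzh
    set r : ι → ℂ := fun i => ∑ k, (b k i : ℂ) * (γ k : ℂ) / (z - (h k : ℂ)) with hr
    set ρ : ℂ := ∑ k, ((γ k * γ k : ℝ) : ℂ) / (z - (h k : ℂ)) with hρ
    have G1 : ∀ i, ∑ j, (H i j : ℂ) * r j = ∑ k, (h k : ℂ) * ((b k i : ℂ) * (γ k : ℂ) / (z - (h k : ℂ))) := by
      intro i
      simp only [hr, Finset.mul_sum]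
      rw [Finset.sum_comm]
      refine Finset.sum_congr rfl fun k _ => ?_
      have e := F1 k i
      have e' : ∑ j, (H i j : ℂ) * (b k j : ℂ) = (h k : ℂ) * (b k i : ℂ) := by exact_mod_cast e
      calc ∑ j, (H i j : ℂ) * ((b k j : ℂ) * (γ k : ℂ) / (z - (h k : ℂ)))
          = (∑ j, (H i j : ℂ) * (b k j : ℂ)) * ((γ k : ℂ) / (z - (h k : ℂ))) := by
            rw [Finset.sum_mul]; exact Finset.sum_congr rfl fun j _ => by ring
        _ = _ := by rw [e']; ring
    have G2 : ∀ i, z * r i - ∑ j, (H i j : ℂ) * r j = (v i : ℂ) := by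
      intro i
      rw [G1]
      simp only [hr, Finset.mul_sum, ← Finset.sum_sub_distrib]
      have e := F2 i
      have e' : ∑ k, (b k i : ℂ) * (γ k : ℂ) = (v i : ℂ) := by exact_mod_cast e
      rw [← e']
      refine Finset.sum_congr rfl fun k _ => ?_
      rw [← sub_mul, mul_div_assoc', mul_comm, mul_div_assoc, div_self (hzh k), mul_one]
    have G3 : ∑ j, (v j : ℂ) * r j = ρ := by
      simp only [hr, hρ, Finset.mul_sum]
      rw [Finset.sum_comm]
      refine Finset.sum_congr rfl fun k _ => ?_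
      have e' : ∑ j, (b k j : ℂ) * (v j : ℂ) = (γ k : ℂ) := by rw [hγ]; push_cast; rfl
      calc ∑ j, (v j : ℂ) * ((b k j : ℂ) * (γ k : ℂ) / (z - (h k : ℂ)))
          = (∑ j, (b k j : ℂ) * (v j : ℂ)) * ((γ k : ℂ) / (z - (h k : ℂ))) := by
            rw [Finset.sum_mul]; exact Finset.sum_congr rfl fun j _ => by ring
        _ = _ := by rw [e']; push_cast; ring
    have G4 : ∀ i, ∑ j, (H i j : ℂ) * r j = (w i : ℂ) * r i + (α : ℂ)⁻¹ * ((v i : ℂ) * ρ) := by
      intro i
      have e : ∀ j, (H i j : ℂ) = (if i = j then (w i : ℂ) else 0) + (α : ℂ)⁻¹ * ((v i : ℂ) * (v j : ℂ)) := by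
        intro j
        rw [hHij]
        split_ifs <;> push_cast <;> ring
      simp only [e, add_mul, ite_mul, zero_mul, Finset.sum_add_distrib, Finset.sum_ite_eq,
        Finset.mem_univ, if_true]
      congr 1
      rw [← G3]
      simp only [Finset.mul_sum]
      exact Finset.sum_congr rfl fun j _ => by ring
    have G5 : ∀ i, r i = (v i : ℂ) * (1 + (α : ℂ)⁻¹ * ρ) / (z - (w i : ℂ)) := by
      intro i
      rw [eq_div_iff (hzw i)]
      have := G2 i
      rw [G4] at this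
      linear_combination this
    have G6 : ρ = (∑ i, (m i : ℂ) / (z - (w i : ℂ))) * (1 + (α : ℂ)⁻¹ * ρ) := by
      conv_lhs => rw [← G3]
      rw [Finset.sum_mul]
      refine Finset.sum_congr rfl fun i _ => ?_
      rw [G5 i, ← hvv i]
      push_cast
      ring
    set s : ℂ := ∑ i, (m i : ℂ) / (z - (w i : ℂ)) with hs
    have : (α : ℂ)⁻¹ * (α : ℂ) = 1 := inv_mul_cancel₀ hα'
    linear_combination ((α : ℂ)⁻¹) * G6 + (1 + (α : ℂ)⁻¹ * ρ) * this

/-- block B -/
theorem sti_recip {ι : Type*} [Fintype ι] [DecidableEq ι] (α : ℝ) (hα : 0 < α) (m w : ι → ℝ)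
    (hm : ∀ i, 0 ≤ m i) (hw : ∀ i, 0 ≤ w i) :
    ∃ δ > 0, ∃ M : ℝ, (∀ z, Circ δ M z → (α : ℂ) - ∑ i, (m i : ℂ) / (z - (w i : ℂ)) ≠ 0) ∧
      Sti δ M (fun z => ((α : ℂ) - ∑ i, (m i : ℂ) / (z - (w i : ℂ)))⁻¹) := by
  obtain ⟨g, h, hg, hh, hgh, hid⟩ := recip_identity α hα m w hm hw
  -- a lower bound for the positive nodes and an upper bound for all nodes
  obtain ⟨δ, hδ, hδw, hδh⟩ : ∃ δ : ℝ, 0 < δ ∧ (∀ i, 0 < w i → δ ≤ w i) ∧ (∀ i, 0 < h i → δ ≤ h i) := by
    have key : ∀ f : ι → ℝ, ∃ δ : ℝ, 0 < δ ∧ ∀ i, 0 < f i → δ ≤ f i := by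
      intro f
      rcases isEmpty_or_nonempty ι with he | hne
      · exact ⟨1, one_pos, fun i => (he.false i).elim⟩
      · obtain ⟨i0, h0⟩ := Finite.exists_min (fun i => if 0 < f i then f i else 1)
        refine ⟨if 0 < f i0 then f i0 else 1, ?_, fun i hi => ?_⟩
        · split_ifs with h
          · exact h
          · exact one_pos
        · have := h0 i
          simpa [hi] using this
    obtain ⟨a, ha, ha'⟩ := key w
    obtain ⟨b, hb, hb'⟩ := key h
    exact ⟨min a b, lt_min ha hb, fun i hi => (min_le_left _ _).trans (ha' i hi),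
      fun i hi => (min_le_right _ _).trans (hb' i hi)⟩
  set M : ℝ := δ + (∑ i, w i + ∑ i, h i) with hM
  have hs1 : 0 ≤ ∑ i, h i := Finset.sum_nonneg fun j _ => hh j
  have hs2 : 0 ≤ ∑ i, w i := Finset.sum_nonneg fun j _ => hw j
  have hMw : ∀ i, w i ≤ M := fun i => by
    have h1 : w i ≤ ∑ i, w i := Finset.single_le_sum (fun j _ => hw j) (Finset.mem_univ i)
    linarith
  have hMh : ∀ i, h i ≤ M := fun i => by
    have h1 : h i ≤ ∑ i, h i := Finset.single_le_sum (fun j _ => hh j) (Finset.mem_univ i)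
    linarith
  have hne : ∀ (f : ι → ℝ), (∀ i, 0 ≤ f i) → (∀ i, 0 < f i → δ ≤ f i) → (∀ i, f i ≤ M) →
      ∀ z, Circ δ M z → ∀ i, z - (f i : ℂ) ≠ 0 := by
    intro f h0 h1 h2 z hz i
    rcases eq_or_lt_of_le (h0 i) with h | h
    · rw [← h]; simpa using hz.ne_zero
    · exact hz.ne (h1 i h) (h2 i)
  have hcirc : ∀ z, Circ δ M z → ((α : ℂ) - ∑ i, (m i : ℂ) / (z - (w i : ℂ))) *
          ((α : ℂ)⁻¹ * (1 + (α : ℂ)⁻¹ * ∑ k, (g k : ℂ) / (z - (h k : ℂ)))) = 1 := fun z hz =>
    hid z (hne w hw hδw hMw z hz) (hne h hh hδh hMh z hz)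
  refine ⟨δ, hδ, M, fun z hz h0 => ?_, ?_⟩
  · have := hcirc z hz
    rw [h0, zero_mul] at this
    exact zero_ne_one this
  -- the coefficients
  set μ : ι → ℝ := fun k => if h k = 0 then 0 else g k / h k * (α⁻¹ * α⁻¹) with hμ
  set ν : ι → ℝ := fun k => if h k = 0 then δ else h k with hν
  set c0 : ℝ := α⁻¹ - ∑ k, μ k with hc0
  have hμ0 : ∀ k, 0 ≤ μ k := by
    intro k
    simp only [hμ]
    split_ifs
    · exact le_rfl
    · exact mul_nonneg (div_nonneg (hg k) (hh k)) (mul_self_nonneg _)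
  -- the value in the form c0 + Σ μ z / (z - ν)
  have hform : ∀ z : ℂ, z ≠ 0 → (∀ k, z - (h k : ℂ) ≠ 0) →
      (α : ℂ)⁻¹ * (1 + (α : ℂ)⁻¹ * ∑ k, (g k : ℂ) / (z - (h k : ℂ))) =
        (c0 : ℂ) + ∑ k, (μ k : ℂ) * (z / (z - (h k : ℂ))) := by
    intro z hz0 hzh
    have e1 : ∀ k, (μ k : ℂ) * (z / (z - (h k : ℂ))) =
        (μ k : ℂ) + (α : ℂ)⁻¹ * (α : ℂ)⁻¹ * ((g k : ℂ) / (z - (h k : ℂ))) := by
      intro k
      by_cases hk : h k = 0
      · have hgk := hgh k hk
        simp [hμ, hk, hgk]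
      · have hk' : (h k : ℂ) ≠ 0 := by exact_mod_cast hk
        have := hzh k
        simp only [hμ, if_neg hk]
        push_cast
        field_simp
        ring
    simp only [e1, Finset.sum_add_distrib, ← Finset.mul_sum]
    rw [hc0]
    push_cast
    ring
  have hc00 : 0 ≤ c0 := by
    have hlim : Tendsto (fun t : ℝ => c0 + ∑ k, μ k * (t / (t + h k))) (𝓝[>] 0) (𝓝 c0) := by
      have h1 : ∀ k, Tendsto (fun t : ℝ => μ k * (t / (t + h k))) (𝓝[>] 0) (𝓝 0) := by
        intro k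
        by_cases hk : h k = 0
        · have : (fun t : ℝ => μ k * (t / (t + h k))) = fun _ => 0 := by
            funext t; simp [hμ, hk]
          rw [this]; exact tendsto_const_nhds
        · have h2 : ContinuousAt (fun t : ℝ => μ k * (t / (t + h k))) 0 := by
            refine continuousAt_const.mul (continuousAt_id.div (by fun_prop) ?_)
            simpa using hk
          have h3 : Tendsto (fun t : ℝ => μ k * (t / (t + h k))) (𝓝 0) (𝓝 0) := by
            have := h2.tendsto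
            simpa using this
          exact h3.mono_left nhdsWithin_le_nhds
      have h2 := tendsto_finsetSum Finset.univ fun k _ => h1 k
      have h3 := (tendsto_const_nhds (x := c0)).add h2
      simpa using h3
    refine ge_of_tendsto hlim ?_
    filter_upwards [self_mem_nhdsWithin] with t ht
    have ht0 : (0 : ℝ) < t := ht
    have hz0 : (-(t : ℂ)) ≠ 0 := by
      rw [neg_ne_zero]; exact_mod_cast ht0.ne'
    have hzf : ∀ f : ι → ℝ, (∀ i, 0 ≤ f i) → ∀ i, (-(t : ℂ)) - (f i : ℂ) ≠ 0 := by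
      intro f hf i
      have : (-(t : ℂ)) - (f i : ℂ) = ((-(t + f i) : ℝ) : ℂ) := by push_cast; ring
      rw [this]
      have h1 := hf i
      have h2 : -(t + f i) ≠ 0 := by
        intro h; linarith
      exact_mod_cast h2
    have hI := hid (-(t : ℂ)) (hzf w hw) (hzf h hh)
    rw [hform _ hz0 (hzf h hh)] at hI
    have e2 : (α : ℂ) - ∑ i, (m i : ℂ) / (-(t : ℂ) - (w i : ℂ)) =
        ((α + ∑ i, m i / (t + w i) : ℝ) : ℂ) := by
      push_cast
      rw [sub_eq_add_neg, ← Finset.sum_neg_distrib]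
      congr 1
      refine Finset.sum_congr rfl fun i _ => ?_
      rw [show (-(t : ℂ) - (w i : ℂ)) = -((t : ℂ) + (w i : ℂ)) by ring, div_neg, neg_neg]
    have e3 : (c0 : ℂ) + ∑ k, (μ k : ℂ) * (-(t : ℂ) / (-(t : ℂ) - (h k : ℂ))) =
        ((c0 + ∑ k, μ k * (t / (t + h k)) : ℝ) : ℂ) := by
      push_cast
      congr 1
      refine Finset.sum_congr rfl fun i _ => ?_
      rw [show (-(t : ℂ) - (h i : ℂ)) = -((t : ℂ) + (h i : ℂ)) by ring, neg_div_neg_eq]
    rw [e2, e3] at hI
    have hR : (α + ∑ i, m i / (t + w i)) * (c0 + ∑ k, μ k * (t / (t + h k))) = 1 := by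
      exact_mod_cast hI
    have hpos : 0 < α + ∑ i, m i / (t + w i) := by
      have : 0 ≤ ∑ i, m i / (t + w i) := Finset.sum_nonneg fun i _ =>
        div_nonneg (hm i) (by have := hw i; linarith)
      linarith
    by_contra hcon
    push Not at hcon
    nlinarith
  set e := Fintype.equivFin ι
  refine ⟨Fintype.card ι, c0, fun j => μ (e.symm j), fun j => ν (e.symm j), hc00,
    fun j => hμ0 _, fun j => ?_, fun z hz => ?_⟩
  · simp only [hν]
    split_ifs with h0
    · exact ⟨le_rfl, by linarith⟩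
    · exact ⟨hδh _ (lt_of_le_of_ne (hh _) (Ne.symm h0)), hMh _⟩
  · have h1 := inv_eq_of_mul_eq_one_right (hcirc z hz)
    simp only
    rw [h1, hform z hz.ne_zero (hne h hh hδh hMh z hz)]
    congr 1
    rw [← Equiv.sum_comp e.symm]
    refine Finset.sum_congr rfl fun j _ => ?_
    by_cases h0 : h (e.symm j) = 0
    · simp [hμ, h0]
    · simp [hν, h0]

end Pool.Agent.Lib_helper86.OPS
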